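import Pool.Agent.H50.DT.Corner

/-!
Connections between opposite corners.
-/

set_option autoImplicit false

namespace H50DT

open H974 H973 Finset

/-- The corner boxes at `(0, 0)` and `(n, n)` are connected. -/
def CC (r n : ℤ) (F : Finset Edg) : Prop :=
  ∃ u v : Vtx, inR 0 r 0 r u ∧ inR (n - r) n (n - r) n v ∧ Reach (↑F : Set Edg) u v

/-- The corner boxes at `(n, 0)` and `(0, n)` are connected. -/
def CC' (r n : ℤ) (F : Finset Edg) : Prop :=
  ∃ u v : Vtx, inR (n - r) n 0 r u ∧ inR 0 r (n - r) n v ∧ Reach (↑F : Set Edg) u v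

theorem pr_CC' (r n : ℤ) : Pr (fun _ => (1/2 : ℝ)) (RE 0 n 0 n) (CC' r n) =
    Pr (fun _ => (1/2 : ℝ)) (RE 0 n 0 n) (CC r n) := by
  have e1 : (rfx n).mp (RE 0 n 0 n) = RE 0 n 0 n := by
    rw [rfx_RE, sub_self, sub_zero]
  have e2 : Pr (fun _ => (1/2 : ℝ)) (RE 0 n 0 n) (CC' r n) =
      Pr (fun _ => (1/2 : ℝ)) ((rfx n).mp (RE 0 n 0 n)) (CC' r n) := by rw [e1]
  rw [e2, LSym.pr]
  apply Pr_congr
  intro F _
  have hs : ∀ u : Vtx, (rfx n).ψ.symm u = (n - u.1, u.2) := fun _ => rfl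
  have ht : ∀ u : Vtx, (rfx n).ψ u = (n - u.1, u.2) := fun _ => rfl
  constructor
  · rintro ⟨u, v, h1, h2, h3⟩
    refine ⟨(rfx n).ψ.symm u, (rfx n).ψ.symm v, ?_, ?_, ?_⟩
    · rw [hs]; unfold inR at h1 ⊢; simp only; omega
    · rw [hs]; unfold inR at h2 ⊢; simp only; omega
    · rw [← (rfx n).reach_iff, ← LSym.coe_mp, Equiv.apply_symm_apply, Equiv.apply_symm_apply]
      exact h3
  · rintro ⟨u, v, h1, h2, h3⟩
    refine ⟨(rfx n).ψ u, (rfx n).ψ v, ?_, ?_, ?_⟩
    · rw [ht]; unfold inR at h1 ⊢; simp only; omega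
    · rw [ht]; unfold inR at h2 ⊢; simp only; omega
    · rw [LSym.coe_mp, (rfx n).reach_iff]
      exact h3

theorem CC_upper {r m n : ℤ} (hr : 0 ≤ r) (hrm : r ≤ m) (hmn : 2 * m < n) :
    Pr (fun _ => (1/2 : ℝ)) (RE 0 n 0 n) (CC r n) ≤ cb r m * cb r m := by
  have s1 : RE 0 m 0 m ⊆ RE 0 n 0 n := RE_subset le_rfl (by omega) le_rfl (by omega)
  have s2 : RE (n - m) n (n - m) n ⊆ RE 0 n 0 n :=
    RE_subset (by omega) le_rfl (by omega) le_rfl
  have hd : Disjoint (RE 0 m 0 m) (RE (n - m) n (n - m) n) := by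
    rw [Finset.disjoint_left]
    intro e h1 h2
    have h3 := (mem_RE_ends h1).1
    have h4 := (mem_RE_ends h2).1
    unfold inR at h3 h4
    omega
  have i1 : Pr (fun _ => (1/2 : ℝ)) (RE 0 n 0 n) (CC r n) ≤
      Pr (fun _ => (1/2 : ℝ)) (RE 0 n 0 n) (fun F => CB r m (F ∩ RE 0 m 0 m) ∧
        CB2 r m n (F ∩ RE (n - m) n (n - m) n)) := by
    apply Pr_mono okhalf
    rintro F hF ⟨u, v, h1, h2, h3⟩
    constructor
    · rw [← CB_local (Finset.Subset.refl _)]
      exact CB_of_reach hF hr hrm (by omega) h1 (v := v) (by unfold inR at h2; omega) h3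
    · rw [← CB2_local (Finset.Subset.refl _)]
      rw [← rxy_rxy n F, CB2_rxy]
      have hG : (rxy n).mp F ⊆ RE 0 n 0 n := by
        have := (rxy n).mp_mono hF
        rwa [rxy_RE, sub_self, sub_zero] at this
      refine CB_of_reach hG hr hrm (by omega) (u := (rxy n).ψ v) (v := (rxy n).ψ u) ?_ ?_ ?_
      · rw [rxy_ψ]; unfold inR at h2 ⊢; simp only; omega
      · rw [rxy_ψ]; unfold inR at h1; simp only; omega
      · rw [LSym.coe_mp]
        exact (rxy n).reach h3.symm
  rw [Pr_indep' s1 s2 hd] at i1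
  refine i1.trans (le_of_eq ?_)
  rw [pr_CB r (Finset.Subset.refl _), pr_CB2 r (Finset.Subset.refl _)]

/-- Gluing of the two corners. -/
theorem glue_CC {F : Finset Edg} {r k m n : ℤ} (hrk : r ≤ k) (hk : 0 ≤ k)
    (hkm : k < m) (hmn : 2 * m ≤ n) (h1 : CB r m F) (h2 : CB2 r m n F) (hT1 : TBc k m 0 n F)
    (hL1 : LRc 0 n k m F) (hT2 : TBc (n - m) (n - k) 0 n F) (hL2 : LRc 0 n (n - m) (n - k) F) :
    CC r n F := by
  obtain ⟨x1, x1', a1, a2, a3⟩ := hT1
  obtain ⟨y1, y1', b1, b2, b3⟩ := hL1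
  obtain ⟨x2, x2', c1, c2, c3⟩ := hT2
  obtain ⟨y2, y2', d1, d2, d3⟩ := hL2
  have a3' : Reach ((F : Set Edg) ∩ ↑(RE k m 0 n)) (x1, 0) (x1', n) :=
    a3.mono (Set.inter_subset_inter_right _ (by exact_mod_cast TBE_subset_RE))
  have b3' : Reach ((F : Set Edg) ∩ ↑(RE 0 n k m)) (0, y1) (n, y1') :=
    b3.mono (Set.inter_subset_inter_right _ (by exact_mod_cast LRE_subset_RE))
  have c3' : Reach ((F : Set Edg) ∩ ↑(RE (n - m) (n - k) 0 n)) (x2, 0) (x2', n) :=
    c3.mono (Set.inter_subset_inter_right _ (by exact_mod_cast TBE_subset_RE))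
  have d3' : Reach ((F : Set Edg) ∩ ↑(RE 0 n (n - m) (n - k))) (0, y2) (n, y2') :=
    d3.mono (Set.inter_subset_inter_right _ (by exact_mod_cast LRE_subset_RE))
  have m1 : Reach (F : Set Edg) (0, y1) (x1, 0) :=
    (cross_meet (a := k) (b := m) (c := k) (d := m) hk hkm (by omega) hk hkm (by omega) b3'
      (by simp only; omega) (by simp only; omega) a3' (by simp only; omega)
      (by simp only; omega)).mono Set.inter_subset_left
  have m2 : Reach (F : Set Edg) (0, y2) (x1, 0) :=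
    (cross_meet (a := k) (b := m) (c := n - m) (d := n - k) hk hkm (by omega) (by omega) (by omega)
      (by omega) d3' (by simp only; omega) (by simp only; omega) a3' (by simp only; omega)
      (by simp only; omega)).mono Set.inter_subset_left
  have m3 : Reach (F : Set Edg) (0, y2) (x2, 0) :=
    (cross_meet (a := n - m) (b := n - k) (c := n - m) (d := n - k) (by omega) (by omega)
      (by omega) (by omega) (by omega) (by omega) d3' (by simp only; omega) (by simp only; omega)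
      c3' (by simp only; omega) (by simp only; omega)).mono Set.inter_subset_left
  obtain ⟨u, w, f1, f2, f3, f4⟩ := h1
  obtain ⟨v, z, g1, g2, g3, g4⟩ := h2
  have k1 : Reach (F : Set Edg) u (x1, 0) := by
    unfold inR at f1
    rcases f3 with f3 | f3
    · exact (cross_meet (a := k) (b := m) (c := 0) (d := m) (by omega) hkm le_rfl le_rfl
        (by omega) (by omega) f4 (by omega) (by omega) a3' le_rfl (by simp only; omega)).mono
        Set.inter_subset_left
    · have := (cross_meet (a := 0) (b := m) (c := k) (d := m) le_rfl (by omega) (by omega) hk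
        hkm le_rfl b3' le_rfl (by simp only; omega) f4 (by omega) (by omega)).mono
        Set.inter_subset_left
      exact this.symm.trans m1
  have k2 : Reach (F : Set Edg) v (x2, 0) := by
    unfold inR at g1
    rcases g3 with g3 | g3
    · have := (cross_meet (a := n - m) (b := n - k) (c := n - m) (d := n) le_rfl (by omega)
        (by omega) (by omega) (by omega) le_rfl g4.symm (by omega) (by omega) c3'
        (by simp only; omega) (by simp only; omega)).mono Set.inter_subset_left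
      exact (g4.mono Set.inter_subset_left).trans this
    · have := (cross_meet (a := n - m) (b := n) (c := n - m) (d := n - k) (by omega) (by omega)
        le_rfl le_rfl (by omega) (by omega) d3' (by simp only; omega) (by simp only; omega)
        g4.symm (by omega) (by omega)).mono Set.inter_subset_left
      exact (g4.mono Set.inter_subset_left).trans (this.symm.trans m3)
  exact ⟨u, v, f1, g1, k1.trans (m2.symm.trans (m3.trans k2.symm))⟩

theorem CC_lower {r k m n : ℤ} (hrk : r ≤ k) (hk : 0 ≤ k) (hmn : 2 * m ≤ n)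
    {j : ℤ} (hj : 0 < j) (hj1 : n ≤ 152 * j) (hj2 : 2 * j ≤ m - k) :
    cb r m * cb r m * dlt ^ 4 ≤ Pr (fun _ => (1/2 : ℝ)) (RE 0 n 0 n) (CC r n) := by
  set S := RE 0 n 0 n with hS
  have s1 : RE 0 m 0 m ⊆ S := RE_subset le_rfl (by omega) le_rfl (by omega)
  have s2 : RE (n - m) n (n - m) n ⊆ S := RE_subset (by omega) le_rfl (by omega) le_rfl
  have t1 : TBE k m 0 n ⊆ S := TBE_subset_RE.trans (RE_subset (by omega) (by omega) le_rfl le_rfl)
  have t2 : LRE 0 n k m ⊆ S := LRE_subset_RE.trans (RE_subset le_rfl le_rfl (by omega) (by omega))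
  have t3 : TBE (n - m) (n - k) 0 n ⊆ S :=
    TBE_subset_RE.trans (RE_subset (by omega) (by omega) le_rfl le_rfl)
  have t4 : LRE 0 n (n - m) (n - k) ⊆ S :=
    LRE_subset_RE.trans (RE_subset le_rfl le_rfl (by omega) (by omega))
  have p1 : dlt ≤ Pr (fun _ => (1/2 : ℝ)) S (TBc k m 0 n) := by
    rw [pr_TBc _ t1]
    exact rswL hj (by omega) (by omega) (by omega)
  have p2 : dlt ≤ Pr (fun _ => (1/2 : ℝ)) S (LRc 0 n k m) := by
    rw [pr_LRc _ t2]
    exact rswL hj (by omega) (by omega) (by omega)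
  have p3 : dlt ≤ Pr (fun _ => (1/2 : ℝ)) S (TBc (n - m) (n - k) 0 n) := by
    rw [pr_TBc _ t3]
    exact rswL hj (by omega) (by omega) (by omega)
  have p4 : dlt ≤ Pr (fun _ => (1/2 : ℝ)) S (LRc 0 n (n - m) (n - k)) := by
    rw [pr_LRc _ t4]
    exact rswL hj (by omega) (by omega) (by omega)
  have cc : ∀ {A B : Finset Edg → Prop}, IncrE S A → IncrE S B →
      IncrE S (fun F => A F ∧ B F) :=
    fun hA hB F G h h' hF => ⟨hA F G h h' hF.1, hB F G h h' hF.2⟩
  have c1 := CB_incr S r m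
  have c2 := CB2_incr S r m n
  have c3 := TBc_incr S k m 0 n
  have c4 := LRc_incr S 0 n k m
  have c5 := TBc_incr S (n - m) (n - k) 0 n
  have c6 := LRc_incr S 0 n (n - m) (n - k)
  have q2 := hmul c1 c2 (cb_nonneg r m) (pr_CB r s1).ge (pr_CB2 r s2).ge
  have q3 := hmul (cc c1 c2) c3 dlt_pos.le q2 p1
  have q4 := hmul (cc (cc c1 c2) c3) c4 dlt_pos.le q3 p2
  have q5 := hmul (cc (cc (cc c1 c2) c3) c4) c5 dlt_pos.le q4 p3
  have q6 := hmul (cc (cc (cc (cc c1 c2) c3) c4) c5) c6 dlt_pos.le q5 p4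
  calc cb r m * cb r m * dlt ^ 4 = cb r m * cb r m * dlt * dlt * dlt * dlt := by ring
    _ ≤ _ := q6
    _ ≤ _ := by
      apply Pr_mono okhalf
      rintro F _ ⟨⟨⟨⟨⟨h1, h2⟩, h3⟩, h4⟩, h5⟩, h6⟩
      exact glue_CC hrk hk (by omega) hmn h1 h2 h3 h4 h5 h6

end H50DT
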