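import Pool.Agent.H974R2.Block
import Pool.Agent.H973R2.Arm1

/-!
Products of independent events and products of decreasing events.
-/

set_option autoImplicit false

namespace H50DT

open H974 H973 Finset

/-- Independent events: the probability that all of them hold. -/
theorem pr_all_indep {ι : Type*} [DecidableEq ι] {U : Finset Edg} (S : ι → Finset Edg)
    (A : ι → Finset Edg → Prop) (hS : ∀ i, S i ⊆ U)
    (hd : ∀ i j, i ≠ j → Disjoint (S i) (S j))
    (hA : ∀ i F, A i F ↔ A i (F ∩ S i)) {q : ℝ} (hq : 0 ≤ q)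
    (hp : ∀ i, Pr (fun _ => (1/2 : ℝ)) U (A i) ≤ q) (I : Finset ι) :
    Pr (fun _ => (1/2 : ℝ)) U (fun F => ∀ i ∈ I, A i F) ≤ q ^ I.card := by
  induction I using Finset.induction_on with
  | empty =>
    rw [Finset.card_empty, pow_zero]
    exact Pr_le_one okhalf _ _
  | insert a I ha ih =>
    rw [Finset.card_insert_of_notMem ha, pow_succ, mul_comm]
    have e1 : Pr (fun _ => (1/2 : ℝ)) U (fun F => ∀ i ∈ insert a I, A i F) =
        Pr (fun _ => (1/2 : ℝ)) U (fun F => A a F ∧ ∀ i ∈ I, A i F) := by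
      apply Pr_congr
      intro F _
      rw [Finset.forall_mem_insert]
    have hloc : ∀ F : Finset Edg, (∀ i ∈ I, A i F) ↔ (∀ i ∈ I, A i (F ∩ I.biUnion S)) := by
      intro F
      refine forall_congr' fun i => forall_congr' fun hi => ?_
      rw [hA i F, hA i (F ∩ I.biUnion S)]
      have : F ∩ I.biUnion S ∩ S i = F ∩ S i := by
        ext e
        simp only [Finset.mem_inter, Finset.mem_biUnion]
        constructor
        · rintro ⟨⟨h1, _⟩, h2⟩
          exact ⟨h1, h2⟩
        · rintro ⟨h1, h2⟩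
          exact ⟨⟨h1, i, hi, h2⟩, h2⟩
      rw [this]
    have hdis : Disjoint (S a) (I.biUnion S) := by
      rw [Finset.disjoint_biUnion_right]
      intro i hi
      exact hd a i (fun h => ha (h ▸ hi))
    have e2 := Pr_indep (p := fun _ => (1/2 : ℝ)) (U := U) (S := S a) (T := I.biUnion S) (hS a)
      (Finset.biUnion_subset.mpr fun i _ => hS i) hdis (A := A a)
      (B := fun F => ∀ i ∈ I, A i F) (fun F _ => hA a F) (fun F _ => hloc F)
    rw [e1, e2]
    exact mul_le_mul (hp a) ih (Pr_nonneg okhalf _ _) hq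

/-- Decreasing events are positively associated. -/
theorem pr_all_decr {ι : Type*} [DecidableEq ι] {U : Finset Edg} (A : ι → Finset Edg → Prop)
    (hA : ∀ i, IncrE U (A i)) {q : ℝ} (hq : 0 ≤ q)
    (hp : ∀ i, q ≤ Pr (fun _ => (1/2 : ℝ)) U (fun F => ¬ A i F)) (I : Finset ι) :
    q ^ I.card ≤ Pr (fun _ => (1/2 : ℝ)) U (fun F => ∀ i ∈ I, ¬ A i F) := by
  induction I using Finset.induction_on with
  | empty =>
    rw [Finset.card_empty, pow_zero]
    rw [Pr_true U (A := fun F => ∀ i ∈ (∅ : Finset ι), ¬ A i F)]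
    intro F _ i hi
    exact absurd hi (Finset.notMem_empty i)
  | insert a I ha ih =>
    rw [Finset.card_insert_of_notMem ha, pow_succ, mul_comm]
    have e1 : Pr (fun _ => (1/2 : ℝ)) U (fun F => ∀ i ∈ insert a I, ¬ A i F) =
        Pr (fun _ => (1/2 : ℝ)) U (fun F => ¬ A a F ∧ ¬ ∃ i ∈ I, A i F) := by
      apply Pr_congr
      intro F _
      rw [Finset.forall_mem_insert]
      push Not
      rfl
    have hinc : IncrE U (fun F => ∃ i ∈ I, A i F) := by
      rintro F G h1 h2 ⟨i, hi, h3⟩
      exact ⟨i, hi, hA i F G h1 h2 h3⟩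
    have h := Pr_harris_dd okhalf (hA a) hinc
    rw [← Pr_not, ← Pr_not] at h
    rw [e1]
    refine le_trans ?_ h
    have e2 : Pr (fun _ => (1/2 : ℝ)) U (fun F => ¬ ∃ i ∈ I, A i F) =
        Pr (fun _ => (1/2 : ℝ)) U (fun F => ∀ i ∈ I, ¬ A i F) := by
      apply Pr_congr
      intro F _
      push Not
      rfl
    rw [e2]
    exact mul_le_mul (hp a) ih (pow_nonneg hq _) (hq.trans (hp a))

/-- All edges are closed. -/
theorem pr_empty (S : Finset Edg) :
    Pr (fun _ => (1/2 : ℝ)) S (fun F => F = ∅) = (1/2 : ℝ) ^ S.card := by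
  induction S using Finset.induction_on with
  | empty =>
    unfold Pr
    rw [Ex_empty, ind_of rfl, Finset.card_empty, pow_zero]
  | insert a S ha ih =>
    unfold Pr at ih ⊢
    rw [Ex_insert _ ha, ih, Finset.card_insert_of_notMem ha, pow_succ]
    have : Ex (fun _ => (1/2 : ℝ)) S (fun F => ind (insert a F = ∅)) = 0 := by
      rw [← Ex_const (fun _ => (1/2 : ℝ)) S 0]
      apply Ex_congr
      intro F _
      exact ind_not_of (Finset.insert_ne_empty a F)
    rw [this]
    ring

/-- All edges are open. -/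
theorem pr_full (S : Finset Edg) :
    Pr (fun _ => (1/2 : ℝ)) S (fun F => F = S) = (1/2 : ℝ) ^ S.card := by
  have h := Pr_compl (fun _ => (1/2 : ℝ)) S (fun F => F = S)
  have e : (fun _ : Edg => (1:ℝ) - 1/2) = fun _ => (1/2 : ℝ) := by
    funext _; norm_num
  rw [e] at h
  rw [h, ← pr_empty S]
  apply Pr_congr
  intro F hF
  constructor
  · intro h1
    rw [Finset.sdiff_eq_self_iff_disjoint] at h1
    exact Finset.eq_empty_of_forall_notMem fun e he => (Finset.disjoint_left.mp h1) (hF he) he
  · intro h1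
    rw [h1, Finset.sdiff_empty]

end H50DT
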