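import Pool.Agent.H973R2.Exp3
import Pool.Agent.H50.DT.Prod

/-!
Connections from a box at a corner to a macroscopic distance.
-/

set_option autoImplicit false

namespace H50DT

open H974 H973 Finset

theorem reach_inR {F : Set Edg} {a b c d : ℤ} {u w : Vtx} (hu : inR a b c d u)
    (h : Reach (F ∩ ↑(RE a b c d)) u w) : inR a b c d w := by
  induction h with
  | refl => exact hu
  | tail _ hs _ =>
    obtain ⟨e, ⟨_, he⟩, hc⟩ := hs
    have := mem_RE_ends (Finset.mem_coe.mp he)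
    rcases hc with ⟨_, h⟩ | ⟨h, _⟩
    · rw [← h]; exact this.2
    · rw [← h]; exact this.1

theorem inter_RE_sub {F : Set Edg} {a b c d a' b' c' d' : ℤ} (h1 : a' ≤ a) (h2 : b ≤ b')
    (h3 : c' ≤ c) (h4 : d ≤ d') : F ∩ ↑(RE a b c d) ⊆ F ∩ ↑(RE a' b' c' d') :=
  Set.inter_subset_inter_right _ (by exact_mod_cast RE_subset h1 h2 h3 h4)

/-- The box `[0, r]²` is connected inside `[0, m]²` to sup-distance `m` from the origin. -/
def CB (r m : ℤ) (F : Finset Edg) : Prop :=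
  ∃ u v : Vtx, inR 0 r 0 r u ∧ inR 0 m 0 m v ∧ (v.1 = m ∨ v.2 = m) ∧
    Reach (↑F ∩ ↑(RE 0 m 0 m)) u v

/-- The same at the corner `(n, n)`. -/
def CB2 (r m n : ℤ) (F : Finset Edg) : Prop :=
  ∃ u v : Vtx, inR (n - r) n (n - r) n u ∧ inR (n - m) n (n - m) n v ∧
    (v.1 = n - m ∨ v.2 = n - m) ∧ Reach (↑F ∩ ↑(RE (n - m) n (n - m) n)) u v

/-- The probability of `CB`. -/
noncomputable def cb (r m : ℤ) : ℝ := Pr (fun _ => (1/2 : ℝ)) (RE 0 m 0 m) (CB r m)

theorem CB.mono {r m : ℤ} {F G : Finset Edg} (h : F ⊆ G) (hF : CB r m F) : CB r m G := by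
  obtain ⟨u, v, h1, h2, h3, h4⟩ := hF
  exact ⟨u, v, h1, h2, h3, h4.mono (Set.inter_subset_inter_left _ (by exact_mod_cast h))⟩

theorem CB2.mono {r m n : ℤ} {F G : Finset Edg} (h : F ⊆ G) (hF : CB2 r m n F) :
    CB2 r m n G := by
  obtain ⟨u, v, h1, h2, h3, h4⟩ := hF
  exact ⟨u, v, h1, h2, h3, h4.mono (Set.inter_subset_inter_left _ (by exact_mod_cast h))⟩

theorem CB_incr (S : Finset Edg) (r m : ℤ) : IncrE S (CB r m) := fun _ _ h _ hF => hF.mono h

theorem CB2_incr (S : Finset Edg) (r m n : ℤ) : IncrE S (CB2 r m n) :=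
  fun _ _ h _ hF => hF.mono h

theorem CB_local {r m : ℤ} {F S : Finset Edg} (hS : RE 0 m 0 m ⊆ S) :
    CB r m F ↔ CB r m (F ∩ S) := by
  unfold CB
  rw [coe_inter_eq hS]

theorem CB2_local {r m n : ℤ} {F S : Finset Edg} (hS : RE (n - m) n (n - m) n ⊆ S) :
    CB2 r m n F ↔ CB2 r m n (F ∩ S) := by
  unfold CB2
  rw [coe_inter_eq hS]

theorem pr_CB (r : ℤ) {m : ℤ} {S : Finset Edg} (hS : RE 0 m 0 m ⊆ S) :
    Pr (fun _ => (1/2 : ℝ)) S (CB r m) = cb r m := by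
  apply Pr_local hS
  intro F _
  exact CB_local (Finset.Subset.refl _)

theorem cb_nonneg (r m : ℤ) : 0 ≤ cb r m := Pr_nonneg okhalf _ _

/-- Composition of the two reflections. -/
def rxy (n : ℤ) : LSym where
  φ := (rfx n).φ.trans (rfy n).φ
  ψ := (rfx n).ψ.trans (rfy n).ψ
  compat := by
    intro e
    rcases (rfx n).compat e with ⟨h1, h2⟩ | ⟨h1, h2⟩ <;>
      rcases (rfy n).compat ((rfx n).φ e) with ⟨h3, h4⟩ | ⟨h3, h4⟩
    · left
      exact ⟨h3.trans (congrArg _ h1), h4.trans (congrArg _ h2)⟩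
    · right
      exact ⟨h3.trans (congrArg _ h2), h4.trans (congrArg _ h1)⟩
    · right
      exact ⟨h3.trans (congrArg _ h1), h4.trans (congrArg _ h2)⟩
    · left
      exact ⟨h3.trans (congrArg _ h2), h4.trans (congrArg _ h1)⟩

theorem rxy_ψ (n : ℤ) (u : Vtx) : (rxy n).ψ u = (n - u.1, n - u.2) := rfl

theorem rxy_ψs (n : ℤ) (u : Vtx) : (rxy n).ψ.symm u = (n - u.1, n - u.2) := rfl

theorem rxy_RE (n a b c d : ℤ) :
    (rxy n).mp (RE a b c d) = RE (n - b) (n - a) (n - d) (n - c) := by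
  have h : (rxy n).mp (RE a b c d) = (rfy n).mp ((rfx n).mp (RE a b c d)) := by
    ext e
    rw [LSym.mem_mp, LSym.mem_mp, LSym.mem_mp]
    rfl
  rw [h, rfx_RE, rfy_RE]

theorem CB2_rxy {r m n : ℤ} {F : Finset Edg} : CB2 r m n ((rxy n).mp F) ↔ CB r m F := by
  have e1 : RE (n - m) n (n - m) n = (rxy n).mp (RE 0 m 0 m) := by
    rw [rxy_RE, sub_zero]
  have e3 : (rxy n).φ '' ((↑F : Set Edg) ∩ ↑(RE 0 m 0 m)) =
      ↑((rxy n).mp F) ∩ ↑(RE (n - m) n (n - m) n) := by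
    rw [LSym.image_inter, e1]
  constructor
  · rintro ⟨u, v, h1, h2, h3, h4⟩
    refine ⟨(rxy n).ψ.symm u, (rxy n).ψ.symm v, ?_, ?_, ?_, ?_⟩
    · rw [rxy_ψs]; unfold inR at h1 ⊢; simp only; omega
    · rw [rxy_ψs]; unfold inR at h2 ⊢; simp only; omega
    · rw [rxy_ψs]; simp only; omega
    · rw [← (rxy n).reach_iff, e3, Equiv.apply_symm_apply, Equiv.apply_symm_apply]
      exact h4
  · rintro ⟨u, v, h1, h2, h3, h4⟩
    refine ⟨(rxy n).ψ u, (rxy n).ψ v, ?_, ?_, ?_, ?_⟩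
    · rw [rxy_ψ]; unfold inR at h1 ⊢; simp only; omega
    · rw [rxy_ψ]; unfold inR at h2 ⊢; simp only; omega
    · rw [rxy_ψ]; simp only; omega
    · rw [← e3, (rxy n).reach_iff]
      exact h4

theorem pr_CB2 (r : ℤ) {m n : ℤ} {S : Finset Edg} (hS : RE (n - m) n (n - m) n ⊆ S) :
    Pr (fun _ => (1/2 : ℝ)) S (CB2 r m n) = cb r m := by
  have h0 : Pr (fun _ => (1/2 : ℝ)) S (CB2 r m n) =
      Pr (fun _ => (1/2 : ℝ)) (RE (n - m) n (n - m) n) (CB2 r m n) := by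
    apply Pr_local hS
    intro F _
    exact CB2_local (Finset.Subset.refl _)
  rw [h0]
  have e1 : RE (n - m) n (n - m) n = (rxy n).mp (RE 0 m 0 m) := by
    rw [rxy_RE, sub_zero]
  have e2 : Pr (fun _ => (1/2 : ℝ)) (RE (n - m) n (n - m) n) (CB2 r m n) =
      Pr (fun _ => (1/2 : ℝ)) ((rxy n).mp (RE 0 m 0 m)) (CB2 r m n) := by rw [e1]
  rw [e2, LSym.pr]
  unfold cb
  exact Pr_congr fun F _ => CB2_rxy

theorem rxy_rxy (n : ℤ) (F : Finset Edg) : (rxy n).mp ((rxy n).mp F) = F := by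
  ext ⟨x, y, b⟩
  rw [LSym.mem_mp, LSym.mem_mp]
  cases b
  · simp only [rxy, Equiv.symm_trans_apply, rfx_φsf, rfy_φsf, sub_sub_cancel]
    have : n - (n - y - 1) - 1 = y := by ring
    rw [this]
  · simp only [rxy, Equiv.symm_trans_apply, rfx_φst, rfy_φst, sub_sub_cancel]
    have : n - (n - x - 1) - 1 = x := by ring
    rw [this]

theorem cb_zero {m : ℤ} (hm : 1 ≤ m) : cb 0 m = armP (QT m) m := by
  have hES : ES (QT m) = RE 0 m 0 m := by
    ext e
    rw [mem_ES, mem_QT, mem_QT]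
    constructor
    · rintro ⟨h1, h2⟩
      exact mem_RE_of_ends (by unfold inR; exact h1) (by unfold inR; exact h2)
    · intro h
      have := mem_RE_ends h
      unfold inR at this
      exact this
  unfold cb armP
  rw [hES]
  apply Pr_congr
  intro F hF
  have hFi : (↑F : Set Edg) ∩ ↑(RE 0 m 0 m) = ↑F := by
    rw [Set.inter_eq_left]; exact_mod_cast hF
  constructor
  · rintro ⟨u, v, h1, h2, h3, h4⟩
    have hu : u = (0, 0) := by
      unfold inR at h1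
      exact Prod.ext (by simp only; omega) (by simp only; omega)
    rw [hu, hFi] at h4
    refine ⟨v, ?_, ?_, h4⟩
    · rw [mem_QT]; exact h2
    · unfold onBX; simp only; omega
  · rintro ⟨y, h1, h2, h3⟩
    rw [mem_QT] at h1
    unfold onBX at h2
    simp only at h2
    refine ⟨(0, 0), y, by unfold inR; simp, h1, by omega, ?_⟩
    rw [hFi]
    exact h3

/-- Last exit from the box `[0, r]²`. -/
theorem last_exit {F : Finset Edg} {r : ℤ} {u v : Vtx} (hu : inR 0 r 0 r u)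
    (h : Reach (↑F : Set Edg) u v) :
    ∃ w, inR 0 r 0 r w ∧ Reach (↑(F \ RE 0 r 0 r) : Set Edg) w v := by
  induction h with
  | refl => exact ⟨u, hu, Reach.refl _ _⟩
  | @tail x y _ hs ih =>
    obtain ⟨w, h1, h2⟩ := ih
    obtain ⟨e, he, hc⟩ := hs
    by_cases hR : e ∈ RE 0 r 0 r
    · have h3 := mem_RE_ends hR
      refine ⟨y, ?_, Reach.refl _ _⟩
      rcases hc with ⟨_, h⟩ | ⟨h, _⟩
      · rw [← h]; exact h3.2
      · rw [← h]; exact h3.1
    · refine ⟨w, h1, h2.trans (Adj.reach ⟨e, ?_, hc⟩)⟩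
      rw [Finset.coe_sdiff]
      exact ⟨he, by exact_mod_cast hR⟩

/-- A path starting in `[0, r]²` and reaching distance `m` crosses to distance `R`. -/
theorem CB_of_reach {F : Finset Edg} {r R n : ℤ} (hF : F ⊆ RE 0 n 0 n) (hr : 0 ≤ r)
    (hrR : r ≤ R) (hRn : R ≤ n) {u v : Vtx} (hu : inR 0 r 0 r u) (hv : R ≤ v.1 ∨ R ≤ v.2)
    (h : Reach (↑F : Set Edg) u v) : CB r R F := by
  obtain ⟨w, h1, h2, h3⟩ := first_exit (a := -R) (b := R) (c := -R) (d := R) (u := u) (v := v)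
    (by unfold inR at hu ⊢; omega) h (by omega)
  have hFi : (↑F : Set Edg) ∩ ↑(RE 0 n 0 n) = ↑F := by
    rw [Set.inter_eq_left]; exact_mod_cast hF
  have hwn : inR 0 n 0 n w := by
    apply reach_inR (F := (↑F : Set Edg)) (u := u)
    · unfold inR at hu ⊢; omega
    · rw [hFi]; exact h3.mono Set.inter_subset_left
  unfold inR at h1 hwn
  by_cases hR0 : R = 0
  · have hu0 : u = (0, 0) := by
      unfold inR at hu
      exact Prod.ext (by simp only; omega) (by simp only; omega)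
    refine ⟨u, u, hu, by unfold inR at hu ⊢; omega, by rw [hu0]; simp only; omega,
      Reach.refl _ _⟩
  · refine ⟨u, w, hu, by unfold inR; omega, by omega, h3.mono ?_⟩
    rintro e ⟨he1, he2⟩
    refine ⟨he1, ?_⟩
    have h5 := mem_RE_ends (hF (by exact_mod_cast he1))
    have h6 := mem_RE_ends (Finset.mem_coe.mp he2)
    unfold inR at h5 h6
    exact Finset.mem_coe.mpr (mem_RE_of_ends (by unfold inR; omega) (by unfold inR; omega))

/-- **Lower bound for `cb`.** -/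
theorem cb_lower {r m : ℤ} (hr : 0 ≤ r) (hrm : r ≤ m) : cb 0 m ≤ cb 0 r * cb r m := by
  have hsub : RE 0 r 0 r ⊆ RE 0 m 0 m := RE_subset le_rfl hrm le_rfl hrm
  have i1 : cb 0 m ≤ Pr (fun _ => (1/2 : ℝ)) (RE 0 m 0 m)
      (fun F => CB 0 r (F ∩ RE 0 r 0 r) ∧ CB r m (F ∩ (RE 0 m 0 m \ RE 0 r 0 r))) := by
    unfold cb
    apply Pr_mono okhalf
    rintro F hF ⟨u, v, h1, h2, h3, h4⟩
    have h4' := h4.mono Set.inter_subset_left
    constructor
    · rw [← CB_local (Finset.Subset.refl _)]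
      refine CB_of_reach hF le_rfl hr hrm h1 (v := v) ?_ h4'
      omega
    · obtain ⟨w, h5, h6⟩ := last_exit (r := r) (u := u) (by unfold inR at h1 ⊢; omega) h4'
      refine ⟨w, v, h5, h2, h3, h6.mono ?_⟩
      intro e he
      rw [Finset.coe_sdiff] at he
      refine ⟨?_, by exact_mod_cast hF (by exact_mod_cast he.1)⟩
      rw [Finset.mem_coe, Finset.mem_inter, Finset.mem_sdiff]
      exact ⟨he.1, hF (by exact_mod_cast he.1), he.2⟩
  rw [Pr_indep' hsub Finset.sdiff_subset Finset.disjoint_sdiff] at i1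
  refine i1.trans (mul_le_mul_of_nonneg_left ?_ (cb_nonneg _ _))
  exact Pr_mono_set okhalf Finset.sdiff_subset (CB_incr _ _ _)

/-- Gluing at a corner. -/
theorem glue_corner {F : Finset Edg} {r R m : ℤ} (hF : F ⊆ RE 0 m 0 m) (hr : 0 ≤ r)
    (hrR : r < R) (hRm : R ≤ m) (h1 : CB 0 R F) (h2 : CB r m F) (h3 : LRc 0 R r R F)
    (h4 : TBc r R 0 R F) : CB 0 m F := by
  obtain ⟨y, y', a1, a2, a3⟩ := h3
  obtain ⟨x, x', b1, b2, b3⟩ := h4
  have a3' : Reach ((F : Set Edg) ∩ ↑(RE 0 R r R)) (0, y) (R, y') :=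
    a3.mono (Set.inter_subset_inter_right _ (by exact_mod_cast LRE_subset_RE))
  have b3' : Reach ((F : Set Edg) ∩ ↑(RE r R 0 R)) (x, 0) (x', R) :=
    b3.mono (Set.inter_subset_inter_right _ (by exact_mod_cast TBE_subset_RE))
  have m0 : Reach ((F : Set Edg) ∩ ↑(RE 0 R 0 R)) (0, y) (x, 0) :=
    cross_meet (a := r) (b := R) (c := r) (d := R) hr hrR le_rfl hr hrR le_rfl a3'
      (by simp only; omega) le_rfl b3' (by simp only; omega) le_rfl
  have key : ∀ u w : Vtx, inR 0 r 0 r u → (w.1 = R ∨ w.2 = R) →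
      Reach ((F : Set Edg) ∩ ↑(RE 0 R 0 R)) u w → Reach ((F : Set Edg) ∩ ↑(RE 0 R 0 R)) u (x, 0) := by
    intro u w hu hw huw
    unfold inR at hu
    rcases hw with hw | hw
    · exact cross_meet (a := r) (b := R) (c := 0) (d := R) hr hrR le_rfl le_rfl (by omega) le_rfl
        huw (by omega) (by omega) b3' le_rfl le_rfl
    · have := cross_meet (a := 0) (b := R) (c := r) (d := R) le_rfl (by omega) le_rfl hr hrR le_rfl
        a3' le_rfl le_rfl huw (by omega) (by omega)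
      exact this.symm.trans m0
  have hs : (F : Set Edg) ∩ ↑(RE 0 R 0 R) ⊆ ↑F ∩ ↑(RE 0 m 0 m) :=
    inter_RE_sub le_rfl hRm le_rfl hRm
  obtain ⟨u0, w0, c1, c2, c3, c4⟩ := h1
  have k1 := key u0 w0 (by unfold inR at c1 ⊢; omega) c3 c4
  obtain ⟨u, v, d1, d2, d3, d4⟩ := h2
  obtain ⟨u', w, f1, f2, f3, f4⟩ := CB_of_reach (F := F) (r := r) (R := R) (n := m) hF hr hrR.le hRm
    (u := u) (v := v) d1 (by omega) (d4.mono Set.inter_subset_left)
  have k2 : Reach ((F : Set Edg) ∩ ↑(RE 0 R 0 R)) u (x, 0) := by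
    obtain ⟨w', g1, g2, g3⟩ := first_exit (a := -R) (b := R) (c := -R) (d := R) (u := u) (v := v)
      (by unfold inR at d1 ⊢; omega) d4 (by omega)
    have hw' := reach_inR (F := (F : Set Edg)) (a := 0) (b := m) (c := 0) (d := m) (u := u)
      (by unfold inR at d1 ⊢; omega) (g3.mono Set.inter_subset_left)
    unfold inR at hw'
    refine key u w' d1 (by omega) (g3.mono ?_)
    rintro e ⟨⟨he0, he1⟩, he2⟩
    refine ⟨he0, ?_⟩
    have h5 := mem_RE_ends (Finset.mem_coe.mp he1)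
    have h6 := mem_RE_ends (Finset.mem_coe.mp he2)
    unfold inR at h5 h6
    exact Finset.mem_coe.mpr (mem_RE_of_ends (by unfold inR; omega) (by unfold inR; omega))
  exact ⟨u0, v, c1, d2, d3, ((k1.trans k2.symm).mono hs).trans d4⟩

/-- **Upper bound for `cb`.** -/
theorem cb_upper {r m : ℤ} (hr : 2 ≤ r) (hrm : 2 * r ≤ m) :
    cb 0 (2 * r) * cb r m * dlt ^ 2 ≤ cb 0 m := by
  set S := RE 0 m 0 m with hS
  have s1 : RE 0 (2 * r) 0 (2 * r) ⊆ S := RE_subset le_rfl hrm le_rfl hrm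
  have s3 : LRE 0 (2 * r) r (2 * r) ⊆ S :=
    LRE_subset_RE.trans (RE_subset le_rfl hrm (by omega) hrm)
  have s4 : TBE r (2 * r) 0 (2 * r) ⊆ S :=
    TBE_subset_RE.trans (RE_subset (by omega) hrm le_rfl hrm)
  obtain ⟨k, hk1, hk2, hk3⟩ : ∃ k : ℤ, 0 < k ∧ 2 * k ≤ r ∧ r ≤ 3 * k := ⟨r / 2, by omega, by omega,
    by omega⟩
  have p3 : dlt ≤ Pr (fun _ => (1/2 : ℝ)) S (LRc 0 (2 * r) r (2 * r)) := by
    rw [pr_LRc _ s3]
    exact rswL hk1 (by omega) (by omega) (by omega)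
  have p4 : dlt ≤ Pr (fun _ => (1/2 : ℝ)) S (TBc r (2 * r) 0 (2 * r)) := by
    rw [pr_TBc _ s4]
    exact rswL hk1 (by omega) (by omega) (by omega)
  have cc : ∀ {A B : Finset Edg → Prop}, IncrE S A → IncrE S B →
      IncrE S (fun F => A F ∧ B F) :=
    fun hA hB F G h h' hF => ⟨hA F G h h' hF.1, hB F G h h' hF.2⟩
  have c1 := CB_incr S 0 (2 * r)
  have c2 := CB_incr S r m
  have c3 := LRc_incr S 0 (2 * r) r (2 * r)
  have c4 := TBc_incr S r (2 * r) 0 (2 * r)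
  have q2 := hmul c1 c2 (cb_nonneg r m) (pr_CB 0 s1).ge (pr_CB r (Finset.Subset.refl _)).ge
  have q3 := hmul (cc c1 c2) c3 dlt_pos.le q2 p3
  have q4 := hmul (cc (cc c1 c2) c3) c4 dlt_pos.le q3 p4
  calc cb 0 (2 * r) * cb r m * dlt ^ 2 = cb 0 (2 * r) * cb r m * dlt * dlt := by ring
    _ ≤ _ := q4
    _ ≤ cb 0 m := by
      unfold cb
      apply Pr_mono okhalf
      rintro F hF ⟨⟨⟨h1, h2⟩, h3⟩, h4⟩
      exact glue_corner hF (by omega) (by omega) hrm h1 h2 h3 h4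

end H50DT
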