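import Pool.Agent.H50.DT.Conn

/-!
The probability that there is a cluster whose diameter is close to the diameter of the box.
-/

set_option autoImplicit false

namespace H50DT

open H974 H973 Finset

theorem cb_bounds : ∃ A B : ℝ, 0 < A ∧ 0 < B ∧
    (∀ r m : ℕ, 2 ≤ r → 2 * r ≤ m → cb r m ≤ B * ((r : ℝ) / m) ^ ((2 : ℝ) / 3)) ∧
    (∀ r m : ℕ, r ≤ m → 1 ≤ m →
      A * (((max r 1 : ℕ) : ℝ) / m) ^ ((2 : ℝ) / 3) ≤ cb r m) := by
  obtain ⟨c, C, hc, hC, h⟩ := exponents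
  have ha : ∀ n : ℕ, 1 ≤ n → c ≤ (n : ℝ) ^ ((2 : ℝ) / 3) * cb 0 n ∧
      (n : ℝ) ^ ((2 : ℝ) / 3) * cb 0 n ≤ C := by
    intro n hn
    rw [cb_zero (by exact_mod_cast hn)]
    exact (h n hn).1
  have hd : 0 < dlt := dlt_pos
  refine ⟨min (c / C) c, 2 * (C / (c * dlt ^ 2)), lt_min (by positivity) hc, by positivity,
    fun r m hr hrm => ?_, fun r m hrm hm => ?_⟩
  · have h1 := cb_upper (r := r) (m := m) (by exact_mod_cast hr) (by exact_mod_cast hrm)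
    obtain ⟨h2, -⟩ := ha (2 * r) (by omega)
    obtain ⟨-, h3⟩ := ha m (by omega)
    have hr0 : (0:ℝ) < r := by exact_mod_cast (by omega : 0 < r)
    have hm0 : (0:ℝ) < m := by exact_mod_cast (by omega : 0 < m)
    have hQ : 0 < (m : ℝ) ^ ((2 : ℝ) / 3) := Real.rpow_pos_of_pos hm0 _
    have hP : 0 < (r : ℝ) ^ ((2 : ℝ) / 3) := Real.rpow_pos_of_pos hr0 _
    have h2r : (((2 * r : ℕ) : ℝ)) ^ ((2 : ℝ) / 3) ≤ 2 * (r : ℝ) ^ ((2 : ℝ) / 3) := by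
      push_cast
      rw [Real.mul_rpow (by norm_num) hr0.le]
      refine mul_le_mul_of_nonneg_right ?_ hP.le
      calc (2:ℝ) ^ ((2 : ℝ) / 3) ≤ (2:ℝ) ^ (1 : ℝ) :=
            Real.rpow_le_rpow_of_exponent_le (by norm_num) (by norm_num)
        _ = 2 := Real.rpow_one 2
    push_cast at h1 h2
    have hcb0 := cb_nonneg r m
    have hcb1 := cb_nonneg 0 (2 * r)
    rw [Real.div_rpow hr0.le hm0.le]
    have h4 : c * (cb r m * dlt ^ 2) ≤ 2 * (r : ℝ) ^ ((2 : ℝ) / 3) * cb 0 m := by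
      calc c * (cb r m * dlt ^ 2)
          ≤ ((2 * r : ℝ) ^ ((2 : ℝ) / 3) * cb 0 (2 * r)) * (cb r m * dlt ^ 2) :=
            mul_le_mul_of_nonneg_right h2 (by positivity)
        _ = (2 * r : ℝ) ^ ((2 : ℝ) / 3) * (cb 0 (2 * r) * cb r m * dlt ^ 2) := by ring
        _ ≤ (2 * r : ℝ) ^ ((2 : ℝ) / 3) * cb 0 m :=
            mul_le_mul_of_nonneg_left h1 (by positivity)
        _ ≤ _ := by
            push_cast at h2r
            exact mul_le_mul_of_nonneg_right h2r (cb_nonneg _ _)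
    have h5 : cb 0 m ≤ C / (m : ℝ) ^ ((2 : ℝ) / 3) := by
      rw [le_div_iff₀ hQ, mul_comm]; exact h3
    have h6 : c * (cb r m * dlt ^ 2) ≤
        2 * (r : ℝ) ^ ((2 : ℝ) / 3) * (C / (m : ℝ) ^ ((2 : ℝ) / 3)) :=
      h4.trans (mul_le_mul_of_nonneg_left h5 (by positivity))
    have h7 : cb r m = c * (cb r m * dlt ^ 2) / (c * dlt ^ 2) := by field_simp
    rw [h7, div_le_iff₀ (by positivity)]
    refine h6.trans (le_of_eq ?_)
    field_simp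
  · have hm0 : (0:ℝ) < m := by exact_mod_cast (by omega : 0 < m)
    have hQ : 0 < (m : ℝ) ^ ((2 : ℝ) / 3) := Real.rpow_pos_of_pos hm0 _
    obtain ⟨h3, -⟩ := ha m hm
    rcases Nat.eq_zero_or_pos r with hr | hr
    · subst hr
      have e : ((max 0 1 : ℕ) : ℝ) = 1 := by norm_num
      rw [e, Real.div_rpow zero_le_one hm0.le, Real.one_rpow, mul_one_div, div_le_iff₀ hQ]
      refine (min_le_right _ _).trans ?_
      rw [mul_comm]
      exact h3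
    · have hr0 : (0:ℝ) < r := by exact_mod_cast hr
      have hP : 0 < (r : ℝ) ^ ((2 : ℝ) / 3) := Real.rpow_pos_of_pos hr0 _
      obtain ⟨-, h2⟩ := ha r hr
      have e : max r 1 = r := max_eq_left hr
      rw [e, Real.div_rpow hr0.le hm0.le]
      have h1 := cb_lower (r := r) (m := m) (by positivity) (by exact_mod_cast hrm)
      have hcb0 := cb_nonneg r m
      have h5 : cb 0 r ≤ C / (r : ℝ) ^ ((2 : ℝ) / 3) := by
        rw [le_div_iff₀ hP, mul_comm]; exact h2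
      have h6 : c / (m : ℝ) ^ ((2 : ℝ) / 3) ≤ C / (r : ℝ) ^ ((2 : ℝ) / 3) * cb r m := by
        rw [div_le_iff₀ hQ, mul_comm _ ((m : ℝ) ^ ((2 : ℝ) / 3))]
        refine h3.trans (mul_le_mul_of_nonneg_left ?_ hQ.le)
        exact h1.trans (mul_le_mul_of_nonneg_right h5 hcb0)
      have h7 : c / C * ((r : ℝ) ^ ((2 : ℝ) / 3) / (m : ℝ) ^ ((2 : ℝ) / 3)) ≤ cb r m := by
        have h8 : c / C * ((r : ℝ) ^ ((2 : ℝ) / 3) / (m : ℝ) ^ ((2 : ℝ) / 3)) =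
            (c / (m : ℝ) ^ ((2 : ℝ) / 3)) * ((r : ℝ) ^ ((2 : ℝ) / 3) / C) := by
          field_simp
        rw [h8]
        calc (c / (m : ℝ) ^ ((2 : ℝ) / 3)) * ((r : ℝ) ^ ((2 : ℝ) / 3) / C)
            ≤ (C / (r : ℝ) ^ ((2 : ℝ) / 3) * cb r m) * ((r : ℝ) ^ ((2 : ℝ) / 3) / C) :=
              mul_le_mul_of_nonneg_right h6 (by positivity)
          _ = cb r m := by field_simp
      exact le_trans (mul_le_mul_of_nonneg_right (min_le_left _ _) (by positivity)) h7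

theorem CC_bounds : ∃ A B : ℝ, 0 < A ∧ 0 < B ∧
    (∀ r n : ℕ, 2 ≤ r → 6 * r ≤ n → Pr (fun _ => (1/2 : ℝ)) (RE 0 n 0 n) (CC r n) ≤
      B * ((r : ℝ) / n) ^ ((4 : ℝ) / 3)) ∧
    (∀ r n : ℕ, 8 * r ≤ n → 17 ≤ n → A * (((max r 1 : ℕ) : ℝ) / n) ^ ((4 : ℝ) / 3) ≤
      Pr (fun _ => (1/2 : ℝ)) (RE 0 n 0 n) (CC r n)) := by
  obtain ⟨A, B, hA, hB, h1, h2⟩ := cb_bounds
  have hd : 0 < dlt := dlt_pos
  have hsq : ∀ t : ℝ, 0 ≤ t → t ^ ((2 : ℝ) / 3) * t ^ ((2 : ℝ) / 3) = t ^ ((4 : ℝ) / 3) := by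
    intro t ht
    rw [← Real.rpow_add_of_nonneg ht (by norm_num) (by norm_num)]
    norm_num
  refine ⟨A ^ 2 * dlt ^ 4, B ^ 2 * (4:ℝ) ^ ((4 : ℝ) / 3), by positivity, by positivity,
    fun r n hr hrn => ?_, fun r n hrn hn => ?_⟩
  · obtain ⟨m, hm1, hm2, hm3⟩ : ∃ m : ℕ, 2 * m < n ∧ 2 * r ≤ m ∧ n ≤ 4 * m :=
      ⟨(n - 1) / 2, by omega, by omega, by omega⟩
    have h3 := CC_upper (r := r) (m := m) (n := n) (by positivity) (by omega) (by omega)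
    have h4 := h1 r m hr hm2
    have hn0 : (0:ℝ) < n := by exact_mod_cast (by omega : 0 < n)
    have hm0 : (0:ℝ) < m := by exact_mod_cast (by omega : 0 < m)
    have h5 : cb r m * cb r m ≤ B ^ 2 * ((r : ℝ) / m) ^ ((4 : ℝ) / 3) := by
      rw [← hsq _ (by positivity)]
      calc cb r m * cb r m ≤ (B * ((r : ℝ) / m) ^ ((2 : ℝ) / 3)) *
            (B * ((r : ℝ) / m) ^ ((2 : ℝ) / 3)) :=
            mul_le_mul h4 h4 (cb_nonneg _ _) (by positivity)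
        _ = _ := by ring
    have h6 : ((r : ℝ) / m) ^ ((4 : ℝ) / 3) ≤ (4:ℝ) ^ ((4 : ℝ) / 3) * ((r : ℝ) / n) ^ ((4 : ℝ) / 3) := by
      rw [← Real.mul_rpow (by norm_num) (by positivity)]
      apply Real.rpow_le_rpow (by positivity) _ (by norm_num)
      rw [div_le_iff₀ hm0]
      have h7 : (n : ℝ) ≤ 4 * m := by exact_mod_cast hm3
      have h8 : (r:ℝ) = (r : ℝ) / n * n := by field_simp
      calc (r:ℝ) = (r : ℝ) / n * n := h8
        _ ≤ (r : ℝ) / n * (4 * m) := mul_le_mul_of_nonneg_left h7 (by positivity)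
        _ = _ := by ring
    refine h3.trans (h5.trans ?_)
    rw [mul_assoc]
    exact mul_le_mul_of_nonneg_left h6 (by positivity)
  · obtain ⟨m, k, j, hm1, hk, hj, hj1, hj2, hm2⟩ : ∃ m k j : ℕ, 2 * m ≤ n ∧ r ≤ k ∧ 0 < j ∧
        n ≤ 152 * j ∧ 2 * j + k ≤ m ∧ 1 ≤ m :=
      ⟨n / 2, n / 8, n / 16, by omega, by omega, by omega, by omega, by omega, by omega⟩
    have h3 := CC_lower (r := r) (k := k) (m := m) (n := n) (by exact_mod_cast hk) (by positivity)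
      (by exact_mod_cast hm1) (j := j) (by exact_mod_cast hj) (by exact_mod_cast hj1)
      (by omega)
    have h4 := h2 r m (by omega) hm2
    have hn0 : (0:ℝ) < n := by exact_mod_cast (by omega : 0 < n)
    have hm0 : (0:ℝ) < m := by exact_mod_cast (by omega : 0 < m)
    set t : ℝ := ((max r 1 : ℕ) : ℝ) with ht
    have ht0 : 0 < t := by rw [ht]; exact_mod_cast (by omega : 0 < max r 1)
    have h6 : (t / n) ^ ((4 : ℝ) / 3) ≤ (t / m) ^ ((4 : ℝ) / 3) := by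
      apply Real.rpow_le_rpow (by positivity) _ (by norm_num)
      apply div_le_div_of_nonneg_left ht0.le hm0
      exact_mod_cast (by omega : m ≤ n)
    have h5 : A ^ 2 * (t / m) ^ ((4 : ℝ) / 3) ≤ cb r m * cb r m := by
      rw [← hsq _ (by positivity)]
      calc A ^ 2 * ((t / m) ^ ((2 : ℝ) / 3) * (t / m) ^ ((2 : ℝ) / 3)) =
            (A * (t / m) ^ ((2 : ℝ) / 3)) * (A * (t / m) ^ ((2 : ℝ) / 3)) := by ring
        _ ≤ _ := mul_le_mul h4 h4 (by positivity) (cb_nonneg _ _)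
    refine le_trans ?_ h3
    calc A ^ 2 * dlt ^ 4 * (t / n) ^ ((4 : ℝ) / 3) = (A ^ 2 * (t / n) ^ ((4 : ℝ) / 3)) * dlt ^ 4 := by
          ring
      _ ≤ (A ^ 2 * (t / m) ^ ((4 : ℝ) / 3)) * dlt ^ 4 := by gcongr
      _ ≤ _ := mul_le_mul_of_nonneg_right h5 (by positivity)

/-- Euclidean distance. -/
noncomputable def dst (u v : Vtx) : ℝ :=
  Real.sqrt (((u.1 : ℝ) - v.1) ^ 2 + ((u.2 : ℝ) - v.2) ^ 2)

/-- There is a cluster with two vertices at distance at least `t`. -/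
def Far (n : ℤ) (t : ℝ) (F : Finset Edg) : Prop :=
  ∃ u v : Vtx, inR 0 n 0 n u ∧ inR 0 n 0 n v ∧ Reach (↑F : Set Edg) u v ∧ t ≤ dst u v

theorem dst_sq (u v : Vtx) : dst u v ^ 2 = ((u.1 : ℝ) - v.1) ^ 2 + ((u.2 : ℝ) - v.2) ^ 2 :=
  Real.sq_sqrt (by positivity)

theorem sqrt2_le : Real.sqrt 2 ≤ 3 / 2 := by
  rw [show (3:ℝ) / 2 = Real.sqrt ((3/2) ^ 2) by rw [Real.sqrt_sq]; norm_num]
  exact Real.sqrt_le_sqrt (by norm_num)

theorem one_le_sqrt2 : 1 ≤ Real.sqrt 2 := by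
  rw [show (1:ℝ) = Real.sqrt 1 by simp]
  exact Real.sqrt_le_sqrt (by norm_num)

theorem CC_of_Far {n : ℕ} {r : ℤ} {x : ℝ} (hx : 0 ≤ x) (hx1 : x ≤ 1) (hr : 3 * x * n ≤ r)
    {F : Finset Edg} (h : Far n ((Real.sqrt 2 - x) * n) F) : CC r n F ∨ CC' r n F := by
  obtain ⟨u, v, hu, hv, hr1, h2⟩ := h
  have hs2 := Real.sq_sqrt (show (0:ℝ) ≤ 2 by norm_num)
  have h3 : ((Real.sqrt 2 - x) * n) ^ 2 ≤ ((u.1 : ℝ) - v.1) ^ 2 + ((u.2 : ℝ) - v.2) ^ 2 := by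
    rw [← dst_sq]
    apply pow_le_pow_left₀ _ h2
    have := one_le_sqrt2
    have : 0 ≤ Real.sqrt 2 - x := by linarith
    positivity
  have h4 : (2 - 3 * x) * (n : ℝ) ^ 2 ≤ ((Real.sqrt 2 - x) * n) ^ 2 := by
    have e : ((Real.sqrt 2 - x) * n) ^ 2 = (2 - 2 * Real.sqrt 2 * x + x ^ 2) * (n:ℝ) ^ 2 := by
      rw [mul_pow]
      congr 1
      ring_nf
      rw [hs2]
      ring
    rw [e]
    apply mul_le_mul_of_nonneg_right _ (by positivity)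
    have := mul_le_mul_of_nonneg_right sqrt2_le hx
    nlinarith [sq_nonneg x]
  unfold inR at hu hv
  have hn0 : (0:ℝ) ≤ n := by positivity
  have key : ∀ a b : ℤ, (0 ≤ a ∧ a ≤ n) → (0 ≤ b ∧ b ≤ n) →
      (1 - 3 * x) * (n:ℝ) ^ 2 ≤ ((a : ℝ) - b) ^ 2 → n - r ≤ |a - b| := by
    intro a b ha hb hab
    have h5 : |((a : ℝ) - b)| ≤ n := by
      rw [abs_le]
      have := ha.1
      have e1 : (0:ℝ) ≤ a := by exact_mod_cast ha.1
      have e2 : (a:ℝ) ≤ n := by exact_mod_cast ha.2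
      have e3 : (0:ℝ) ≤ b := by exact_mod_cast hb.1
      have e4 : (b:ℝ) ≤ n := by exact_mod_cast hb.2
      constructor <;> linarith
    have h6 : ((a : ℝ) - b) ^ 2 ≤ |((a : ℝ) - b)| * n := by
      rw [← sq_abs, sq]
      exact mul_le_mul_of_nonneg_left h5 (abs_nonneg _)
    have h7 : (1 - 3 * x) * (n:ℝ) ≤ |((a : ℝ) - b)| := by
      rcases eq_or_lt_of_le hn0 with h0 | h0
      · rw [← h0, mul_zero]; exact abs_nonneg _
      · have : ((1 - 3 * x) * (n:ℝ)) * n ≤ |((a : ℝ) - b)| * n := by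
          calc ((1 - 3 * x) * (n:ℝ)) * n = (1 - 3 * x) * (n:ℝ) ^ 2 := by ring
            _ ≤ _ := hab.trans h6
        exact le_of_mul_le_mul_right this h0
    have h8 : ((n - r : ℤ) : ℝ) ≤ ((|a - b| : ℤ) : ℝ) := by
      push_cast
      linarith
    exact_mod_cast h8
  have d1 : ((u.1 : ℝ) - v.1) ^ 2 ≤ (n:ℝ) ^ 2 := by
    apply sq_le_sq'
    · have : (-(n:ℤ)) ≤ u.1 - v.1 := by omega
      exact_mod_cast this
    · have : u.1 - v.1 ≤ (n:ℤ) := by omega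
      exact_mod_cast this
  have d2 : ((u.2 : ℝ) - v.2) ^ 2 ≤ (n:ℝ) ^ 2 := by
    apply sq_le_sq'
    · have : (-(n:ℤ)) ≤ u.2 - v.2 := by omega
      exact_mod_cast this
    · have : u.2 - v.2 ≤ (n:ℤ) := by omega
      exact_mod_cast this
  have k1 := key u.1 v.1 hu.1 hv.1 (by nlinarith)
  have k2 := key u.2 v.2 hu.2 hv.2 (by nlinarith)
  rcases abs_cases (u.1 - v.1) with ⟨g1, g2⟩ | ⟨g1, g2⟩ <;>
    rcases abs_cases (u.2 - v.2) with ⟨g3, g4⟩ | ⟨g3, g4⟩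
  · left
    exact ⟨v, u, by unfold inR; omega, by unfold inR; omega, hr1.symm⟩
  · right
    exact ⟨u, v, by unfold inR; omega, by unfold inR; omega, hr1⟩
  · right
    exact ⟨v, u, by unfold inR; omega, by unfold inR; omega, hr1.symm⟩
  · left
    exact ⟨u, v, by unfold inR; omega, by unfold inR; omega, hr1⟩

theorem Far_of_CC {n r : ℕ} {x : ℝ} (hx1 : x ≤ 1) (hrn : 8 * r ≤ n) (hx : 8 * (r:ℝ) ≤ x * n)
    {F : Finset Edg} (h : CC r n F) : Far n ((Real.sqrt 2 - x) * n) F := by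
  obtain ⟨u, v, hu, hv, hr⟩ := h
  unfold inR at hu hv
  refine ⟨u, v, by unfold inR; omega, by unfold inR; omega, hr, ?_⟩
  unfold dst
  apply Real.le_sqrt_of_sq_le
  have h1 : ((n:ℝ) - 2 * r) ≤ (v.1 : ℝ) - u.1 := by
    have : ((n:ℤ) - 2 * r) ≤ v.1 - u.1 := by omega
    exact_mod_cast this
  have h2 : ((n:ℝ) - 2 * r) ≤ (v.2 : ℝ) - u.2 := by
    have : ((n:ℤ) - 2 * r) ≤ v.2 - u.2 := by omega
    exact_mod_cast this
  have hrn' : 8 * (r:ℝ) ≤ n := by exact_mod_cast hrn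
  have hr0 : (0:ℝ) ≤ r := by positivity
  have hs2 := Real.sq_sqrt (show (0:ℝ) ≤ 2 by norm_num)
  have hs1 := one_le_sqrt2
  have hs3 := sqrt2_le
  have h3 : (Real.sqrt 2 - x) * n ≤ Real.sqrt 2 * (n - 2 * r) := by
    have : Real.sqrt 2 * (2 * r) ≤ x * n := by nlinarith
    nlinarith
  have h4 : 0 ≤ Real.sqrt 2 * ((n:ℝ) - 2 * r) := by
    apply mul_nonneg (by positivity); linarith
  have h5 : (Real.sqrt 2 * ((n:ℝ) - 2 * r)) ^ 2 ≤ ((u.1 : ℝ) - v.1) ^ 2 + ((u.2 : ℝ) - v.2) ^ 2 := by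
    rw [mul_pow, hs2]
    have e1 : ((n:ℝ) - 2 * r) ^ 2 ≤ ((u.1 : ℝ) - v.1) ^ 2 := by
      rw [show ((u.1 : ℝ) - v.1) ^ 2 = ((v.1 : ℝ) - u.1) ^ 2 by ring]
      exact pow_le_pow_left₀ (by linarith) h1 2
    have e2 : ((n:ℝ) - 2 * r) ^ 2 ≤ ((u.2 : ℝ) - v.2) ^ 2 := by
      rw [show ((u.2 : ℝ) - v.2) ^ 2 = ((v.2 : ℝ) - u.2) ^ 2 by ring]
      exact pow_le_pow_left₀ (by linarith) h2 2
    linarith
  refine le_trans ?_ h5
  apply pow_le_pow_left₀ _ h3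
  apply mul_nonneg _ (by positivity)
  linarith

end H50DT
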