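import Pool.Agent.H50.DT.Prod
import Pool.Agent.H50.DT.Far

/-!
The probability that all clusters are small.
-/

set_option autoImplicit false

namespace H50DT

open H974 H973 Finset

/-- All clusters have diameter at most `t`. -/
def Sml (n : ℤ) (t : ℝ) (F : Finset Edg) : Prop :=
  ∀ u v : Vtx, inR 0 n 0 n u → inR 0 n 0 n v → Reach (↑F : Set Edg) u v → dst u v ≤ t

theorem half_pow (N : ℕ) : (1/2 : ℝ) ^ N = Real.exp (-(Real.log 2 * N)) := by
  rw [show -(Real.log 2 * (N:ℝ)) = (N:ℝ) * Real.log (1/2) by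
    rw [one_div, Real.log_inv]; ring]
  rw [Real.exp_nat_mul, Real.exp_log (by norm_num)]

theorem dst_ge_fst {u v : Vtx} {s : ℝ} (h : s ≤ (v.1 : ℝ) - u.1) : s ≤ dst u v := by
  unfold dst
  refine h.trans ((le_abs_self _).trans ?_)
  rw [← Real.sqrt_sq_eq_abs]
  apply Real.sqrt_le_sqrt
  nlinarith [sq_nonneg ((u.2 : ℝ) - v.2)]

theorem small_squares {n s k : ℕ} (hs : 0 < s) (hk : k * (s + 1) ≤ n + 1) {t : ℝ} (ht : t < s) :
    Pr (fun _ => (1/2 : ℝ)) (RE 0 n 0 n) (Sml n t) ≤ (1/2 : ℝ) ^ (k * k) := by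
  classical
  set I : Finset (ℕ × ℕ) := Finset.range k ×ˢ Finset.range k with hI
  -- rectangles
  have hin : ∀ i : ℕ, i < k → (i : ℤ) * (s + 1) + s ≤ n := by
    intro i hi
    have h1 : (i + 1) * (s + 1) ≤ k * (s + 1) := Nat.mul_le_mul_right _ hi
    have h2 : (i + 1) * (s + 1) ≤ n + 1 := h1.trans hk
    have h3 : ((i : ℤ) + 1) * (s + 1) ≤ n + 1 := by exact_mod_cast h2
    nlinarith
  set a : ℕ × ℕ → ℤ := fun z => (z.1 : ℤ) * (s + 1) with ha
  set b : ℕ × ℕ → ℤ := fun z => (z.2 : ℤ) * (s + 1) with hb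
  set S : ℕ × ℕ → Finset Edg := fun z =>
    if z ∈ I then RE (a z) (a z + s) (b z) (b z + s) else ∅ with hSdef
  set A : ℕ × ℕ → Finset Edg → Prop := fun z F =>
    z ∈ I → ¬ LRc (a z) (a z + s) (b z) (b z + s) F with hAdef
  have hmemI : ∀ z, z ∈ I ↔ z.1 < k ∧ z.2 < k := by
    intro z
    rw [hI, Finset.mem_product, Finset.mem_range, Finset.mem_range]
  have hsub : ∀ z, S z ⊆ RE 0 n 0 n := by
    intro z
    simp only [hSdef]
    split_ifs with h
    · rw [hmemI] at h
      have h1 := hin z.1 h.1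
      have h2 := hin z.2 h.2
      apply RE_subset
      · simp only [ha]; positivity
      · simp only [ha]; exact h1
      · simp only [hb]; positivity
      · simp only [hb]; exact h2
    · exact Finset.empty_subset _
  have hdis : ∀ z w, z ≠ w → Disjoint (S z) (S w) := by
    intro z w hzw
    simp only [hSdef]
    split_ifs with h1 h2
    · rw [Finset.disjoint_left]
      intro e he1 he2
      have g1 := (mem_RE_ends he1).1
      have g2 := (mem_RE_ends he2).1
      unfold inR at g1 g2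
      apply hzw
      have key : ∀ (i j : ℕ) (x : ℤ), (i : ℤ) * (s + 1) ≤ x → x ≤ (i : ℤ) * (s + 1) + s →
          (j : ℤ) * (s + 1) ≤ x → x ≤ (j : ℤ) * (s + 1) + s → i = j := by
        intro i j x k1 k2 k3 k4
        rcases lt_trichotomy i j with h | h | h
        · exfalso
          have : ((i : ℤ) + 1) * (s + 1) ≤ (j : ℤ) * (s + 1) :=
            mul_le_mul_of_nonneg_right (by exact_mod_cast h) (by positivity)
          nlinarith
        · exact h
        · exfalso
          have : ((j : ℤ) + 1) * (s + 1) ≤ (i : ℤ) * (s + 1) :=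
            mul_le_mul_of_nonneg_right (by exact_mod_cast h) (by positivity)
          nlinarith
      exact Prod.ext (key _ _ _ g1.1.1 g1.1.2 g2.1.1 g2.1.2)
        (key _ _ _ g1.2.1 g1.2.2 g2.2.1 g2.2.2)
    · exact Finset.disjoint_empty_right _
    · exact Finset.disjoint_empty_left _
    · exact Finset.disjoint_empty_left _
  have hloc : ∀ z F, A z F ↔ A z (F ∩ S z) := by
    intro z F
    simp only [hAdef]
    refine forall_congr' fun h => not_congr ?_
    apply LRc_local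
    simp only [hSdef]
    rw [if_pos h]
    exact LRE_subset_RE
  -- no crossing outside `I`
  have hp : ∀ z ∈ I, Pr (fun _ => (1/2 : ℝ)) (RE 0 n 0 n) (A z) ≤ 1/2 := by
    intro z hz
    have e1 : Pr (fun _ => (1/2 : ℝ)) (RE 0 n 0 n) (A z) =
        Pr (fun _ => (1/2 : ℝ)) (RE 0 n 0 n)
          (fun F => ¬ LRc (a z) (a z + s) (b z) (b z + s) F) := by
      apply Pr_congr
      intro F _
      simp only [hAdef]
      exact ⟨fun h => h hz, fun h _ => h⟩
    have h1 := hsub z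
    simp only [hSdef] at h1
    rw [if_pos hz] at h1
    rw [e1, Pr_not, pr_LRc _ (LRE_subset_RE.trans h1)]
    have h2 := hh_square (s : ℤ) (by exact_mod_cast hs)
    have e2 : a z + s - a z = s := by ring
    have e3 : b z + s - b z = s := by ring
    rw [e2, e3]
    linarith
  -- restrict the index type
  have hfin : Pr (fun _ => (1/2 : ℝ)) (RE 0 n 0 n) (fun F => ∀ z ∈ I.attach, A z.1 F) ≤
      (1/2 : ℝ) ^ I.attach.card := by
    refine pr_all_indep (ι := {z // z ∈ I}) (fun z => S z.1) (fun z => A z.1)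
      (fun z => hsub z.1) (fun z w h => hdis _ _ (fun h' => h (Subtype.ext h')))
      (fun z F => hloc z.1 F) (by norm_num) (fun z => hp z.1 z.2) I.attach
  rw [Finset.card_attach, hI, Finset.card_product, Finset.card_range] at hfin
  refine le_trans (Pr_mono okhalf ?_) hfin
  intro F hF hsm z _ hz hcr
  have hz' := (hmemI _).mp hz
  obtain ⟨y, y', h1, h2, h3⟩ := hcr
  have g1 := hin z.1.1 hz'.1
  have g2 := hin z.1.2 hz'.2
  have g3 : 0 ≤ (z.1.1 : ℤ) * (s + 1) := by positivity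
  have g4 : 0 ≤ (z.1.2 : ℤ) * (s + 1) := by positivity
  simp only [ha, hb] at h1 h2 h3
  have h4 := hsm _ _ (by unfold inR; simp only; omega) (by unfold inR; simp only; omega)
    (h3.mono Set.inter_subset_left)
  have h5 : (s : ℝ) ≤ dst ((z.1.1 : ℤ) * (s + 1), y) ((z.1.1 : ℤ) * (s + 1) + s, y') := by
    apply dst_ge_fst
    push_cast
    linarith
  linarith

theorem small_upper {n : ℕ} {x : ℝ} (hx : 1 ≤ x * n) (hx1 : x < 1) :
    Pr (fun _ => (1/2 : ℝ)) (RE 0 n 0 n) (Sml n (x * n)) ≤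
      Real.exp (-(Real.log 2 / 36 / x ^ 2)) := by
  have hn0 : (0:ℝ) < n := by
    rcases Nat.eq_zero_or_pos n with h | h
    · rw [h] at hx; norm_num at hx
    · exact_mod_cast h
  have hx0 : 0 < x := by
    by_contra hc
    push Not at hc
    nlinarith [mul_nonpos_of_nonpos_of_nonneg hc hn0.le]
  have hl2 : 0 < Real.log 2 := Real.log_pos (by norm_num)
  rcases le_or_gt x (1/6) with h6 | h6
  · set s : ℕ := ⌊x * n⌋₊ + 1 with hs
    have hs1 : x * n < s := by rw [hs]; push_cast; exact Nat.lt_floor_add_one _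
    have hs2 : (s : ℝ) ≤ x * n + 1 := by
      rw [hs]; push_cast
      have := Nat.floor_le (show 0 ≤ x * n by positivity)
      linarith
    set k : ℕ := n / (s + 1) with hk
    have hks : k * (s + 1) ≤ n + 1 := (Nat.div_mul_le_self n (s + 1)).trans (Nat.le_succ n)
    have h1 := small_squares (n := n) (s := s) (k := k) (by omega) hks hs1
    have h2 : 1 / (6 * x) ≤ (k : ℝ) := by
      have h3 : n < (k + 1) * (s + 1) := by
        rw [hk]
        have := Nat.lt_div_mul_add (a := n) (b := s + 1) (by omega)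
        calc n < n / (s + 1) * (s + 1) + (s + 1) := this
          _ = _ := by ring
      have h4 : (n : ℝ) < (k + 1) * (s + 1) := by exact_mod_cast h3
      have h5 : (s:ℝ) + 1 ≤ 3 * (x * n) := by linarith
      have h7 : (n : ℝ) < (k + 1) * (3 * (x * n)) :=
        h4.trans_le (mul_le_mul_of_nonneg_left h5 (by positivity))
      have h8 : (1 : ℝ) < (k + 1) * (3 * x) := by
        have : (n : ℝ) * 1 < n * ((k + 1) * (3 * x)) := by linarith
        exact lt_of_mul_lt_mul_left this hn0.le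
      rw [div_le_iff₀ (by positivity)]
      nlinarith
    have h3 : 1 / (36 * x ^ 2) ≤ ((k * k : ℕ) : ℝ) := by
      push_cast
      calc 1 / (36 * x ^ 2) = (1 / (6 * x)) * (1 / (6 * x)) := by field_simp; norm_num
        _ ≤ (k : ℝ) * k := mul_le_mul h2 h2 (by positivity) (by positivity)
    refine h1.trans ?_
    rw [half_pow]
    apply Real.exp_le_exp.mpr
    have h4 := mul_le_mul_of_nonneg_left h3 hl2.le
    have e : Real.log 2 / 36 / x ^ 2 = Real.log 2 * (1 / (36 * x ^ 2)) := by field_simp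
    rw [e]
    linarith
  · have hn : 0 < n := by exact_mod_cast hn0
    have h1 := small_squares (n := n) (s := n) (k := 1) (t := x * n) hn (by omega) (by nlinarith)
    refine h1.trans ?_
    rw [half_pow]
    apply Real.exp_le_exp.mpr
    have h2 : 1 ≤ 36 * x ^ 2 := by nlinarith
    have e : Real.log 2 / 36 / x ^ 2 = Real.log 2 / (36 * x ^ 2) := by field_simp
    rw [e]
    have h3 : Real.log 2 / (36 * x ^ 2) ≤ Real.log 2 := div_le_self hl2.le h2
    push_cast
    linarith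

theorem card_RE (n : ℕ) : (RE 0 (n:ℤ) 0 n).card ≤ 2 * (n + 1) ^ 2 := by
  unfold RE
  refine (Finset.card_filter_le _ _).trans ?_
  rw [Finset.card_product, Finset.card_product, Int.card_Icc, Finset.card_univ, Fintype.card_bool]
  have : ((n:ℤ) + 1 - 0).toNat = n + 1 := by omega
  rw [this]
  apply le_of_eq
  ring

theorem reach_empty {u v : Vtx} (h : Reach (↑(∅ : Finset Edg) : Set Edg) u v) : u = v := by
  induction h with
  | refl => rfl
  | tail _ hs _ =>
    obtain ⟨e, he, _⟩ := hs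
    exact absurd (Finset.mem_coe.mp he) (Finset.notMem_empty e)

theorem dst_self (u : Vtx) : dst u u = 0 := by
  unfold dst
  simp

/-- The four crossings of the annulus of radii `s` and `3 s` around the point `(i s, j s)`. -/
def Arn (s : ℤ) (z : ℕ × ℕ × Fin 4) (F : Finset Edg) : Prop :=
  match z.2.2 with
  | 0 => LRc (z.1 * s + s) (z.1 * s + 3 * s) (z.2.1 * s - 3 * s) (z.2.1 * s + 3 * s) F
  | 1 => LRc (z.1 * s - 3 * s) (z.1 * s - s) (z.2.1 * s - 3 * s) (z.2.1 * s + 3 * s) F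
  | 2 => TBc (z.1 * s - 3 * s) (z.1 * s + 3 * s) (z.2.1 * s + s) (z.2.1 * s + 3 * s) F
  | 3 => TBc (z.1 * s - 3 * s) (z.1 * s + 3 * s) (z.2.1 * s - 3 * s) (z.2.1 * s - s) F

theorem Arn_incr (U : Finset Edg) (s : ℤ) (z : ℕ × ℕ × Fin 4) : IncrE U (Arn s z) := by
  obtain ⟨i, j, q⟩ := z
  fin_cases q
  · exact LRc_incr _ _ _ _ _
  · exact LRc_incr _ _ _ _ _
  · exact TBc_incr _ _ _ _ _
  · exact TBc_incr _ _ _ _ _

theorem hh_wide {s : ℤ} (hs : 5 ≤ s) : hh (1/2) (2 * s) (6 * s) ≤ 1 - (1/2 : ℝ) ^ 47 := by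
  have hdual := hh_dual (q := 1/2) (w := 2 * s) (h := 6 * s) (by omega) (by omega)
  have hrsw : (1/2:ℝ)^47 ≤ hh (1/2) (6 * s + 1) (2 * s - 1) :=
    rsw (n := s - 1) (by omega) (by omega) (by omega) (by omega)
  have e5 : (1:ℝ) - 1/2 = 1/2 := by norm_num
  rw [e5] at hdual
  linarith

theorem pr_noLR {U : Finset Edg} {a b c d : ℤ} {s : ℤ} (hs : 5 ≤ s) (h1 : b - a = 2 * s)
    (h2 : d - c = 6 * s) : (1/2 : ℝ) ^ 47 ≤
      Pr (fun _ => (1/2 : ℝ)) U (fun F => ¬ LRc a b c d F) := by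
  rw [Pr_not]
  have h3 : Pr (fun _ => (1/2 : ℝ)) U (LRc a b c d) ≤
      Pr (fun _ => (1/2 : ℝ)) (U ∪ LRE a b c d) (LRc a b c d) :=
    Pr_mono_set okhalf Finset.subset_union_left (LRc_incr _ _ _ _ _)
  rw [pr_LRc _ Finset.subset_union_right, h1, h2] at h3
  have := hh_wide hs
  linarith

theorem pr_noTB {U : Finset Edg} {a b c d : ℤ} {s : ℤ} (hs : 5 ≤ s) (h1 : d - c = 2 * s)
    (h2 : b - a = 6 * s) : (1/2 : ℝ) ^ 47 ≤
      Pr (fun _ => (1/2 : ℝ)) U (fun F => ¬ TBc a b c d F) := by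
  rw [Pr_not]
  have h3 : Pr (fun _ => (1/2 : ℝ)) U (TBc a b c d) ≤
      Pr (fun _ => (1/2 : ℝ)) (U ∪ TBE a b c d) (TBc a b c d) :=
    Pr_mono_set okhalf Finset.subset_union_left (TBc_incr _ _ _ _ _)
  rw [pr_TBc _ Finset.subset_union_right, h1, h2] at h3
  have := hh_wide hs
  linarith

theorem pr_Arn {U : Finset Edg} {s : ℤ} (hs : 5 ≤ s) (z : ℕ × ℕ × Fin 4) :
    (1/2 : ℝ) ^ 47 ≤ Pr (fun _ => (1/2 : ℝ)) U (fun F => ¬ Arn s z F) := by
  obtain ⟨i, j, q⟩ := z
  fin_cases q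
  · exact pr_noLR hs (by ring) (by ring)
  · exact pr_noLR hs (by ring) (by ring)
  · exact pr_noTB hs (by ring) (by ring)
  · exact pr_noTB hs (by ring) (by ring)

theorem near_of_no_Arn {F : Finset Edg} {s : ℤ} (hs : 0 < s) {i j : ℕ} {u v : Vtx}
    (hu1 : (i : ℤ) * s ≤ u.1 ∧ u.1 ≤ i * s + s) (hu2 : (j : ℤ) * s ≤ u.2 ∧ u.2 ≤ j * s + s)
    (h : Reach (↑F : Set Edg) u v) (hno : ∀ q : Fin 4, ¬ Arn s (i, j, q) F) :
    (i * s - 3 * s < v.1 ∧ v.1 < i * s + 3 * s) ∧ (j * s - 3 * s < v.2 ∧ v.2 < j * s + 3 * s) := by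
  by_contra hcon
  set a : ℤ := i * s with ha
  set b : ℤ := j * s with hb
  obtain ⟨w, k1, k2, k3⟩ := first_exit (a := a - 3 * s) (b := a + 3 * s) (c := b - 3 * s)
    (d := b + 3 * s) (u := u) (v := v) (by unfold inR; omega) h (by omega)
  rcases k2 with k2 | k2 | k2 | k2
  · apply hno 1
    obtain ⟨y1, y2, m1, m2, m3, -⟩ := sub_LR (a := a - 3 * s) (b := a - s) (c := b - 3 * s)
      (d := b + 3 * s) (by omega)
      (by rintro x y ⟨-, h⟩ _ _; simp only [mem_coe, mem_RE_true] at h; omega)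
      (by rintro x y ⟨-, h⟩ _ _; simp only [mem_coe, mem_RE_false] at h; omega)
      k3.symm k2.le (by omega)
    exact ⟨y1, y2, m1, m2, m3.mono (by rintro e ⟨⟨h4, -⟩, h5⟩; exact ⟨h4, h5⟩)⟩
  · apply hno 0
    obtain ⟨y1, y2, m1, m2, m3, -⟩ := sub_LR (a := a + s) (b := a + 3 * s) (c := b - 3 * s)
      (d := b + 3 * s) (by omega)
      (by rintro x y ⟨-, h⟩ _ _; simp only [mem_coe, mem_RE_true] at h; omega)
      (by rintro x y ⟨-, h⟩ _ _; simp only [mem_coe, mem_RE_false] at h; omega)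
      k3 (by omega) k2.ge
    exact ⟨y1, y2, m1, m2, m3.mono (by rintro e ⟨⟨h4, -⟩, h5⟩; exact ⟨h4, h5⟩)⟩
  · apply hno 3
    obtain ⟨y1, y2, m1, m2, m3, -⟩ := sub_TB (a := a - 3 * s) (b := a + 3 * s) (c := b - 3 * s)
      (d := b - s) (by omega)
      (by rintro x y ⟨-, h⟩ _ _; simp only [mem_coe, mem_RE_false] at h; omega)
      (by rintro x y ⟨-, h⟩ _ _; simp only [mem_coe, mem_RE_true] at h; omega)
      k3.symm k2.le (by omega)
    exact ⟨y1, y2, m1, m2, m3.mono (by rintro e ⟨⟨h4, -⟩, h5⟩; exact ⟨h4, h5⟩)⟩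
  · apply hno 2
    obtain ⟨y1, y2, m1, m2, m3, -⟩ := sub_TB (a := a - 3 * s) (b := a + 3 * s) (c := b + s)
      (d := b + 3 * s) (by omega)
      (by rintro x y ⟨-, h⟩ _ _; simp only [mem_coe, mem_RE_false] at h; omega)
      (by rintro x y ⟨-, h⟩ _ _; simp only [mem_coe, mem_RE_true] at h; omega)
      k3 (by omega) k2.ge
    exact ⟨y1, y2, m1, m2, m3.mono (by rintro e ⟨⟨h4, -⟩, h5⟩; exact ⟨h4, h5⟩)⟩

theorem small_lower {n : ℕ} {x : ℝ} (hx : 1 ≤ x * n) (hx1 : x ≤ 1) :
    Real.exp (-(Real.log 2 * 32000 / x ^ 2)) ≤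
      Pr (fun _ => (1/2 : ℝ)) (RE 0 n 0 n) (Sml n (x * n)) := by
  have hn0 : (0:ℝ) < n := by
    rcases Nat.eq_zero_or_pos n with h | h
    · rw [h] at hx; norm_num at hx
    · exact_mod_cast h
  have hn1 : (1:ℝ) ≤ n := by
    have : 0 < n := by exact_mod_cast hn0
    exact_mod_cast this
  have hx0 : 0 < x := by
    by_contra hc
    push Not at hc
    nlinarith [mul_nonpos_of_nonpos_of_nonneg hc hn0.le]
  have hl2 : 0 < Real.log 2 := Real.log_pos (by norm_num)
  rcases lt_or_ge (x * n) 60 with h60 | h60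
  · have h1 : Pr (fun _ => (1/2 : ℝ)) (RE 0 n 0 n) (fun F => F = ∅) ≤
        Pr (fun _ => (1/2 : ℝ)) (RE 0 n 0 n) (Sml n (x * n)) := by
      apply Pr_mono okhalf
      intro F _ hF u v _ _ hr
      rw [hF] at hr
      rw [reach_empty hr, dst_self]
      positivity
    rw [pr_empty, half_pow] at h1
    refine le_trans ?_ h1
    apply Real.exp_le_exp.mpr
    have h2 : (((RE 0 (n:ℤ) 0 n).card : ℕ) : ℝ) ≤ 8 * (n:ℝ) ^ 2 := by
      have := card_RE n
      have h3 : (((RE 0 (n:ℤ) 0 n).card : ℕ) : ℝ) ≤ 2 * ((n:ℝ) + 1) ^ 2 := by exact_mod_cast this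
      nlinarith
    have h3 : (n:ℝ) ^ 2 ≤ 3600 / x ^ 2 := by
      rw [le_div_iff₀ (by positivity)]
      nlinarith
    have h4 : Real.log 2 * (((RE 0 (n:ℤ) 0 n).card : ℕ) : ℝ) ≤ Real.log 2 * (32000 / x ^ 2) := by
      apply mul_le_mul_of_nonneg_left _ hl2.le
      have : 8 * (3600 / x ^ 2) ≤ 32000 / x ^ 2 := by
        rw [← mul_div_assoc]
        apply div_le_div_of_nonneg_right _ (by positivity)
        norm_num
      linarith
    rw [mul_div_assoc]
    linarith
  · set s : ℕ := ⌊x * n / 6⌋₊ with hs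
    have hs1 : (s:ℝ) ≤ x * n / 6 := Nat.floor_le (by positivity)
    have hs2 : x * n / 6 < s + 1 := Nat.lt_floor_add_one _
    have hs10 : 10 ≤ s := by
      rw [hs]
      apply Nat.le_floor
      push_cast
      linarith
    set k : ℕ := n / s with hk
    set I : Finset (ℕ × ℕ × Fin 4) :=
      Finset.range (k + 1) ×ˢ (Finset.range (k + 1) ×ˢ Finset.univ) with hI
    have h1 := pr_all_decr (U := RE 0 n 0 n) (fun z : ℕ × ℕ × Fin 4 => Arn s z)
      (fun z => Arn_incr _ _ z) (q := (1/2:ℝ) ^ 47) (by positivity)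
      (fun z => pr_Arn (by exact_mod_cast (by omega : 5 ≤ s)) z) I
    have h2 : Pr (fun _ => (1/2 : ℝ)) (RE 0 n 0 n) (fun F => ∀ z ∈ I, ¬ Arn s z F) ≤
        Pr (fun _ => (1/2 : ℝ)) (RE 0 n 0 n) (Sml n (x * n)) := by
      apply Pr_mono okhalf
      intro F hF hno u v hu hv hr
      unfold inR at hu hv
      have hspos : (0:ℤ) < s := by exact_mod_cast (by omega : 0 < s)
      obtain ⟨i, hi1, hi2, hi3⟩ : ∃ i : ℕ, (i:ℤ) * s ≤ u.1 ∧ u.1 ≤ i * s + s ∧ i ≤ k := by
        obtain ⟨m, hm⟩ := Int.eq_ofNat_of_zero_le hu.1.1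
        refine ⟨m / s, ?_, ?_, ?_⟩
        · rw [hm]; exact_mod_cast Nat.div_mul_le_self m s
        · rw [hm]
          have := Nat.lt_div_mul_add (a := m) (b := s) (by omega)
          exact_mod_cast this.le
        · rw [hk]
          apply Nat.div_le_div_right
          have := hu.1.2
          rw [hm] at this
          exact_mod_cast this
      obtain ⟨j, hj1, hj2, hj3⟩ : ∃ i : ℕ, (i:ℤ) * s ≤ u.2 ∧ u.2 ≤ i * s + s ∧ i ≤ k := by
        obtain ⟨m, hm⟩ := Int.eq_ofNat_of_zero_le hu.2.1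
        refine ⟨m / s, ?_, ?_, ?_⟩
        · rw [hm]; exact_mod_cast Nat.div_mul_le_self m s
        · rw [hm]
          have := Nat.lt_div_mul_add (a := m) (b := s) (by omega)
          exact_mod_cast this.le
        · rw [hk]
          apply Nat.div_le_div_right
          have := hu.2.2
          rw [hm] at this
          exact_mod_cast this
      have h3 := near_of_no_Arn (F := F) hspos (i := i) (j := j) ⟨hi1, hi2⟩ ⟨hj1, hj2⟩ hr
        (fun q => hno (i, j, q) (by
          rw [hI, Finset.mem_product, Finset.mem_product, Finset.mem_range, Finset.mem_range]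
          exact ⟨by simp only; omega, by simp only; omega, Finset.mem_univ _⟩))
      have e1 : ((u.1 : ℝ) - v.1) ^ 2 ≤ (4 * (s:ℝ)) ^ 2 := by
        apply sq_le_sq'
        · have : -(4 * (s:ℤ)) ≤ u.1 - v.1 := by omega
          exact_mod_cast this
        · have : u.1 - v.1 ≤ 4 * (s:ℤ) := by omega
          exact_mod_cast this
      have e2 : ((u.2 : ℝ) - v.2) ^ 2 ≤ (4 * (s:ℝ)) ^ 2 := by
        apply sq_le_sq'
        · have : -(4 * (s:ℤ)) ≤ u.2 - v.2 := by omega
          exact_mod_cast this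
        · have : u.2 - v.2 ≤ 4 * (s:ℤ) := by omega
          exact_mod_cast this
      unfold dst
      rw [Real.sqrt_le_left (by positivity)]
      have e3 : 6 * (s:ℝ) ≤ x * n := by linarith
      have e4 : (6 * (s:ℝ)) ^ 2 ≤ (x * n) ^ 2 := pow_le_pow_left₀ (by positivity) e3 2
      nlinarith
    refine le_trans ?_ (h1.trans h2)
    rw [hI, Finset.card_product, Finset.card_product, Finset.card_range, Finset.card_univ,
      Fintype.card_fin, ← pow_mul, half_pow]
    apply Real.exp_le_exp.mpr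
    have h3 : (k : ℝ) ≤ 12 / x := by
      have h4 : (k : ℝ) ≤ n / s := Nat.cast_div_le
      refine h4.trans ?_
      have hs0 : (0:ℝ) < s := by exact_mod_cast (by omega : 0 < s)
      rw [div_le_div_iff₀ hs0 hx0]
      nlinarith
    have h4 : (k : ℝ) + 1 ≤ 13 / x := by
      have : 1 ≤ 1 / x := by rw [le_div_iff₀ hx0]; linarith
      have e : 13 / x = 12 / x + 1 / x := by ring
      rw [e]; linarith
    have h5 : ((k : ℝ) + 1) * (k + 1) ≤ 169 / x ^ 2 := by
      calc ((k : ℝ) + 1) * (k + 1) ≤ (13 / x) * (13 / x) :=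
            mul_le_mul h4 h4 (by positivity) (by positivity)
        _ = 169 / x ^ 2 := by field_simp; norm_num
    push_cast
    rw [mul_div_assoc]
    have h6 : 47 * (((k : ℝ) + 1) * (((k : ℝ) + 1) * 4)) ≤ 32000 / x ^ 2 := by
      have e : 47 * (((k : ℝ) + 1) * (((k : ℝ) + 1) * 4)) = 188 * (((k : ℝ) + 1) * (k + 1)) := by
        ring
      rw [e]
      have : 188 * (169 / x ^ 2) ≤ 32000 / x ^ 2 := by
        rw [← mul_div_assoc]
        apply div_le_div_of_nonneg_right _ (by positivity)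
        norm_num
      linarith
    have h7 := mul_le_mul_of_nonneg_left h6 hl2.le
    linarith

end H50DT
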