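import Pool.Agent.H342R3.Lim.CPT
import Pool.Agent.H50.DT.Small

/-!
The diameter of the outer boundary of the largest cluster.
-/

set_option autoImplicit false

namespace H50DT

open H342L H342P H342P.Plain Filter Topology

/-- An extremal point of the cluster lies on the outer boundary. -/
theorem extremal_mem {n : ℕ} {F : Finset Edge} {v : ℤ × ℤ} {a b : ℂ} (ha : a ∈ body n F v)
    (hab : 0 < dist a b) (hmax : ∀ z ∈ body n F v, dist z b ≤ dist a b) :
    a ∈ outerBoundary n F v := by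
  -- the ray beyond `a`
  set f : ℝ → ℂ := fun t => a + t • (a - b) with hf
  have hdist : ∀ t : ℝ, 0 ≤ t → dist (f t) b = (1 + t) * dist a b := by
    intro t ht
    simp only [hf]
    rw [dist_eq_norm, dist_eq_norm]
    have : a + t • (a - b) - b = (1 + t) • (a - b) := by
      rw [add_smul, one_smul]; ring
    rw [this, norm_smul, Real.norm_of_nonneg (by linarith)]
  have hcompl : ∀ t : ℝ, 0 < t → f t ∈ (body n F v)ᶜ := by
    intro t ht hb
    have h1 := hmax _ hb
    rw [hdist t ht.le] at h1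
    nlinarith
  have hcont : Continuous f := by simp only [hf]; fun_prop
  have hpre : IsPreconnected (f '' Set.Ioi 0) :=
    isPreconnected_Ioi.image f hcont.continuousOn
  have hsub : f '' Set.Ioi 0 ⊆ (body n F v)ᶜ := by
    rintro _ ⟨t, ht, rfl⟩
    exact hcompl t ht
  have hout : ∀ t : ℝ, 0 < t → f t ∈ outside n F v := by
    intro t ht
    refine ⟨hcompl t ht, fun hbd => ?_⟩
    have h1 : f '' Set.Ioi 0 ⊆ connectedComponentIn (body n F v)ᶜ (f t) :=
      hpre.subset_connectedComponentIn ⟨t, ht, rfl⟩ hsub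
    obtain ⟨R, hR⟩ := (hbd.subset h1).subset_ball b
    have h2 := hR ⟨|R| / dist a b + 1, by
      have : 0 ≤ |R| / dist a b := by positivity
      exact Set.mem_Ioi.mpr (by linarith), rfl⟩
    rw [Metric.mem_ball, hdist _ (by positivity)] at h2
    have h3 : (1 + (|R| / dist a b + 1)) * dist a b = 2 * dist a b + |R| := by
      field_simp; ring
    rw [h3] at h2
    have := le_abs_self R
    linarith
  unfold outerBoundary
  rw [frontier]
  constructor
  · have h1 : Tendsto f (𝓝[>] 0) (𝓝 a) := by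
      have h2 : Tendsto f (𝓝 0) (𝓝 (f 0)) := hcont.tendsto 0
      have h3 : f 0 = a := by simp [hf]
      rw [h3] at h2
      exact h2.mono_left nhdsWithin_le_nhds
    refine mem_closure_of_tendsto h1 ?_
    filter_upwards [self_mem_nhdsWithin] with t ht
    exact hout t ht
  · intro h
    exact (interior_subset h).1 ha

theorem diam_outer (n : ℕ) (F : Finset Edge) (v : ℤ × ℤ) :
    Metric.diam (outerBoundary n F v) = Metric.diam (body n F v) := by
  have hc := CPT_isCompact_body n F v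
  have hne : (body n F v).Nonempty := ⟨_, CPT_pt_mem n F v⟩
  have hbd : Bornology.IsBounded (outerBoundary n F v) :=
    hc.isBounded.subset (CPT_frontier_sub n F v)
  apply le_antisymm (Metric.diam_mono (CPT_frontier_sub n F v) hc.isBounded)
  obtain ⟨⟨a, b⟩, ⟨ha, hb⟩, hmax⟩ := (hc.prod hc).exists_isMaxOn (hne.prod hne)
    (f := fun p : ℂ × ℂ => dist p.1 p.2) (by fun_prop)
  have hmax' : ∀ z ∈ body n F v, ∀ w ∈ body n F v, dist z w ≤ dist a b := fun z hz w hw =>
    hmax (show (z, w) ∈ body n F v ×ˢ body n F v from ⟨hz, hw⟩)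
  refine (Metric.diam_le_of_forall_dist_le dist_nonneg hmax').trans ?_
  rcases eq_or_lt_of_le (dist_nonneg (x := a) (y := b)) with h | h
  · rw [← h]; exact Metric.diam_nonneg
  · refine Metric.dist_le_diam_of_mem hbd ?_ ?_
    · exact extremal_mem ha h (fun z hz => hmax' z hz b hb)
    · refine extremal_mem (b := a) hb (by rw [dist_comm]; exact h) (fun z hz => ?_)
      rw [dist_comm b a]
      exact hmax' z hz a ha

theorem dist_pt {n : ℕ} (hn : 0 < n) (u w : ℤ × ℤ) : dist (pt n u) (pt n w) = dst u w / n := by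
  have hn' : (0:ℝ) < n := by exact_mod_cast hn
  rw [Complex.dist_eq_re_im]
  unfold pt dst
  simp only
  rw [← sub_div, ← sub_div, div_pow, div_pow, ← add_div, Real.sqrt_div (by positivity),
    Real.sqrt_sq hn'.le]

theorem body_sub_hull (n : ℕ) (F : Finset Edge) (v : ℤ × ℤ) :
    body n F v ⊆ convexHull ℝ (pt n '' cluster F v) := by
  intro z hz
  rcases hz with hz | hz
  · obtain ⟨w, hw, hz⟩ := Set.mem_iUnion₂.1 hz
    rw [Set.mem_singleton_iff] at hz
    rw [hz]
    exact subset_convexHull ℝ _ ⟨w, hw, rfl⟩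
  · obtain ⟨e, he, hz⟩ := Set.mem_iUnion₂.1 hz
    have h1 : fst e ∈ cluster F v := he.2
    have h2 : snd e ∈ cluster F v := by
      rw [mem_cluster] at h1 ⊢
      refine H974.Reach.trans h1 (H974.Adj.reach ⟨e, by exact_mod_cast he.1, Or.inl ⟨rfl, ?_⟩⟩)
      rw [snd_eq]
    exact segment_subset_convexHull (Set.mem_image_of_mem (pt n) h1)
      (Set.mem_image_of_mem (pt n) h2) hz

theorem diam_body (n : ℕ) (F : Finset Edge) (v : ℤ × ℤ) :
    Metric.diam (body n F v) = Metric.diam (pt n '' cluster F v) := by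
  have hc := CPT_isCompact_body n F v
  have hsub : pt n '' cluster F v ⊆ body n F v := by
    rintro _ ⟨w, hw, rfl⟩
    left
    exact Set.mem_biUnion hw (Set.mem_singleton _)
  have hbd : Bornology.IsBounded (pt n '' cluster F v) := hc.isBounded.subset hsub
  apply le_antisymm
  · refine (Metric.diam_mono (body_sub_hull n F v) ?_).trans (le_of_eq (convexHull_diam _))
    exact isBounded_convexHull.mpr hbd
  · exact Metric.diam_mono hsub hc.isBounded

theorem mem_box_iff {n : ℕ} {u : ℤ × ℤ} : u ∈ box n ↔ H974.inR 0 n 0 n u := by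
  unfold box H974.inR
  rw [Finset.mem_product, Finset.mem_Icc, Finset.mem_Icc]

theorem dst_le_of_sq {a b c d : ℤ × ℤ} (h : sqDist c d ≤ sqDist a b) : dst c d ≤ dst a b := by
  unfold dst
  apply Real.sqrt_le_sqrt
  unfold sqDist at h
  have h' : (((c.1 - d.1) ^ 2 + (c.2 - d.2) ^ 2 : ℤ) : ℝ) ≤
      (((a.1 - b.1) ^ 2 + (a.2 - b.2) ^ 2 : ℤ) : ℝ) := by exact_mod_cast h
  push_cast at h'
  exact h'

/-- The diameter of the outer boundary of the largest cluster. -/
theorem diam_largest {n : ℕ} {F : Finset Edge} {v : ℤ × ℤ} (hn : 0 < n) (hF : F ⊆ edges n)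
    (h : Largest n F v) : ∃ a b : ℤ × ℤ, H974.inR 0 n 0 n a ∧ H974.inR 0 n 0 n b ∧
      H974.Reach (↑F : Set Edge) a b ∧ Metric.diam (outerBoundary n F v) = dst a b / n ∧
      ∀ c d : ℤ × ℤ, H974.inR 0 n 0 n c → H974.inR 0 n 0 n d →
        H974.Reach (↑F : Set Edge) c d → dst c d ≤ dst a b := by
  obtain ⟨hv, a, ha, b, hb, hmax⟩ := h
  have hn' : (0:ℝ) < n := by exact_mod_cast hn
  have ha' := (mem_cluster F v a).mp ha
  have hb' := (mem_cluster F v b).mp hb
  have hmax' : ∀ c d : ℤ × ℤ, H974.inR 0 n 0 n c → H974.inR 0 n 0 n d →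
      H974.Reach (↑F : Set Edge) c d → dst c d ≤ dst a b := by
    intro c d hc hd hcd
    exact dst_le_of_sq (hmax c (mem_box_iff.mpr hc) d (mem_box_iff.mpr hd)
      ((mem_cluster F c d).mpr hcd))
  refine ⟨a, b, mem_box_iff.mp (CPT_box hF hv ha), mem_box_iff.mp (CPT_box hF hv hb),
    ha'.symm.trans hb', ?_, hmax'⟩
  rw [diam_outer, diam_body]
  have hbd : Bornology.IsBounded (pt n '' cluster F v) :=
    ((CPT_cluster_finite F v).image _).isBounded
  apply le_antisymm
  · refine Metric.diam_le_of_forall_dist_le (by unfold dst; positivity) ?_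
    rintro _ ⟨c, hc, rfl⟩ _ ⟨d, hd, rfl⟩
    rw [dist_pt hn]
    apply div_le_div_of_nonneg_right _ hn'.le
    exact hmax' c d (mem_box_iff.mp (CPT_box hF hv hc)) (mem_box_iff.mp (CPT_box hF hv hd))
      (((mem_cluster F v c).mp hc).symm.trans ((mem_cluster F v d).mp hd))
  · rw [← dist_pt hn]
    exact Metric.dist_le_diam_of_mem hbd ⟨a, ha, rfl⟩ ⟨b, hb, rfl⟩

theorem ge_diam_iff {n : ℕ} {F : Finset Edge} {v : ℤ × ℤ} (hn : 0 < n) (hF : F ⊆ edges n)
    (h : Largest n F v) (s : ℝ) :
    s ≤ Metric.diam (outerBoundary n F v) ↔ Far n (s * n) F := by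
  have hn' : (0:ℝ) < n := by exact_mod_cast hn
  obtain ⟨a, b, h1, h2, h3, h4, h5⟩ := diam_largest hn hF h
  rw [h4, le_div_iff₀ hn']
  constructor
  · intro h6
    exact ⟨a, b, h1, h2, h3, h6⟩
  · rintro ⟨c, d, g1, g2, g3, g4⟩
    exact g4.trans (h5 c d g1 g2 g3)

theorem diam_le_iff {n : ℕ} {F : Finset Edge} {v : ℤ × ℤ} (hn : 0 < n) (hF : F ⊆ edges n)
    (h : Largest n F v) (s : ℝ) :
    Metric.diam (outerBoundary n F v) ≤ s ↔ Sml n (s * n) F := by
  have hn' : (0:ℝ) < n := by exact_mod_cast hn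
  obtain ⟨a, b, h1, h2, h3, h4, h5⟩ := diam_largest hn hF h
  rw [h4, div_le_iff₀ hn']
  constructor
  · intro h6 c d g1 g2 g3
    exact (h5 c d g1 g2 g3).trans h6
  · intro h6
    exact h6 a b h1 h2 h3

end H50DT
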