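import Pool.Agent.H50.DT.Diam
import Pool.Agent.H342R3.Lim.Law

/-!
The two tails at finite scale and in the limit.
-/

set_option autoImplicit false

namespace H50DT

open H974 H973 Finset

theorem full_far {n : ℕ} {x : ℝ} (hx : 0 ≤ x) :
    Far n ((Real.sqrt 2 - x) * n) (RE 0 n 0 n) := by
  have hV : ∀ {u v : Vtx}, Reach (EV (fun _ => True) ∩ ↑(RE 0 (n:ℤ) 0 n)) u v →
      Reach (↑(RE 0 (n:ℤ) 0 n) : Set Edg) u v := fun h => h.mono Set.inter_subset_right
  have h1 : Reach (↑(RE 0 (n:ℤ) 0 n) : Set Edg) (0, 0) ((n:ℤ), 0) :=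
    hV (hline' (by positivity) le_rfl (by omega) le_rfl (fun _ _ _ => trivial))
  have h2 : Reach (↑(RE 0 (n:ℤ) 0 n) : Set Edg) ((n:ℤ), 0) ((n:ℤ), (n:ℤ)) :=
    hV (vline' (by positivity) le_rfl (by omega) le_rfl (fun _ _ _ => trivial))
  refine ⟨(0, 0), ((n:ℤ), (n:ℤ)), by unfold inR; simp, by unfold inR; simp, h1.trans h2, ?_⟩
  have hn0 : (0:ℝ) ≤ n := by positivity
  unfold dst
  have e : (((0:ℤ) : ℝ) - ((n:ℤ) : ℝ)) ^ 2 + (((0:ℤ) : ℝ) - ((n:ℤ) : ℝ)) ^ 2 = 2 * (n:ℝ) ^ 2 := by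
    push_cast; ring
  simp only
  rw [e, Real.sqrt_mul (by norm_num), Real.sqrt_sq hn0]
  nlinarith

theorem far_bounds : ∃ c C : ℝ, 0 < c ∧ 0 < C ∧ ∀ n : ℕ, 1 ≤ n → ∀ x : ℝ, 0 ≤ x → x ≤ 1 →
    c * (x + 1 / n) ^ ((4 : ℝ) / 3) ≤
      Pr (fun _ => (1/2 : ℝ)) (RE 0 n 0 n) (Far n ((Real.sqrt 2 - x) * n)) ∧
    Pr (fun _ => (1/2 : ℝ)) (RE 0 n 0 n) (Far n ((Real.sqrt 2 - x) * n)) ≤
      C * (x + 1 / n) ^ ((4 : ℝ) / 3) := by
  obtain ⟨A, B, hA, hB, hup, hlow⟩ := CC_bounds
  refine ⟨min (A / (17:ℝ) ^ ((4 : ℝ) / 3)) ((1/2:ℝ) ^ 650),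
    2 * B * (3:ℝ) ^ ((4 : ℝ) / 3) + (18:ℝ) ^ ((4 : ℝ) / 3), by positivity, by positivity,
    fun n hn x hx hx1 => ?_⟩
  have hn0 : (0:ℝ) < n := by exact_mod_cast (by omega : 0 < n)
  have hy0 : 0 < x + 1 / n := by positivity
  have hyp : 0 < (x + 1 / n) ^ ((4 : ℝ) / 3) := Real.rpow_pos_of_pos hy0 _
  have hny : (n:ℝ) * (x + 1 / n) = x * n + 1 := by field_simp
  constructor
  · rcases lt_or_ge n 17 with h17 | h17
    · have h1 : Pr (fun _ => (1/2 : ℝ)) (RE 0 n 0 n) (fun F => F = RE 0 (n:ℤ) 0 n) ≤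
          Pr (fun _ => (1/2 : ℝ)) (RE 0 n 0 n) (Far n ((Real.sqrt 2 - x) * n)) := by
        apply Pr_mono okhalf
        intro F _ hF
        rw [hF]
        exact full_far hx
      rw [pr_full] at h1
      refine le_trans ?_ h1
      have h2 : (RE 0 (n:ℤ) 0 n).card ≤ 648 := by
        refine (card_RE n).trans ?_
        have : (n + 1) ^ 2 ≤ 18 ^ 2 := Nat.pow_le_pow_left (by omega) 2
        omega
      have h3 : (1/2:ℝ) ^ 648 ≤ (1/2:ℝ) ^ (RE 0 (n:ℤ) 0 n).card :=
        pow_le_pow_of_le_one (by norm_num) (by norm_num) h2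
      refine le_trans ?_ h3
      have h4 : x + 1 / n ≤ 2 := by
        have : 1 / (n:ℝ) ≤ 1 := by
          rw [div_le_one hn0]; exact_mod_cast hn
        linarith
      have h5 : (x + 1 / n) ^ ((4 : ℝ) / 3) ≤ 4 := by
        calc (x + 1 / n) ^ ((4 : ℝ) / 3) ≤ (2:ℝ) ^ ((4 : ℝ) / 3) :=
              Real.rpow_le_rpow hy0.le h4 (by norm_num)
          _ ≤ (2:ℝ) ^ (2:ℝ) := Real.rpow_le_rpow_of_exponent_le (by norm_num) (by norm_num)
          _ = 4 := by norm_num
      calc min (A / (17:ℝ) ^ ((4 : ℝ) / 3)) ((1/2:ℝ) ^ 650) * (x + 1 / n) ^ ((4 : ℝ) / 3)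
          ≤ (1/2:ℝ) ^ 650 * 4 := mul_le_mul (min_le_right _ _) h5 hyp.le (by positivity)
        _ = (1/2:ℝ) ^ 648 := by
          have e1 : (1/2:ℝ) ^ 650 = (1/2:ℝ) ^ 648 * (1/2) ^ 2 := by rw [← pow_add]
          have e2 : ((1/2:ℝ) ^ 2) * 4 = 1 := by norm_num
          rw [e1, mul_assoc, e2, mul_one]
    · set r : ℕ := ⌊x * n / 8⌋₊ with hr
      have hr1 : (r:ℝ) ≤ x * n / 8 := Nat.floor_le (by positivity)
      have hr2 : x * n / 8 < r + 1 := Nat.lt_floor_add_one _
      have hr3 : 8 * (r:ℝ) ≤ x * n := by linarith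
      have hr4 : 8 * r ≤ n := by
        have : 8 * (r:ℝ) ≤ n := hr3.trans (by nlinarith)
        exact_mod_cast this
      have h1 : Pr (fun _ => (1/2 : ℝ)) (RE 0 n 0 n) (CC r n) ≤
          Pr (fun _ => (1/2 : ℝ)) (RE 0 n 0 n) (Far n ((Real.sqrt 2 - x) * n)) :=
        Pr_mono okhalf fun F _ h => Far_of_CC hx1 hr4 hr3 h
      refine le_trans ?_ ((hlow r n hr4 h17).trans h1)
      have h2 : (x + 1 / n) / 17 ≤ ((max r 1 : ℕ) : ℝ) / n := by
        rw [div_le_div_iff₀ (by norm_num) hn0]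
        have e : (x + 1 / n) * n = x * n + 1 := by rw [mul_comm]; exact hny
        rw [e]
        push_cast
        have m1 : (r:ℝ) ≤ max (r:ℝ) 1 := le_max_left _ _
        have m2 : (1:ℝ) ≤ max (r:ℝ) 1 := le_max_right _ _
        linarith
      have h3 : ((x + 1 / n) / 17) ^ ((4 : ℝ) / 3) ≤ (((max r 1 : ℕ) : ℝ) / n) ^ ((4 : ℝ) / 3) :=
        Real.rpow_le_rpow (by positivity) h2 (by norm_num)
      rw [Real.div_rpow hy0.le (by norm_num)] at h3
      calc min (A / (17:ℝ) ^ ((4 : ℝ) / 3)) ((1/2:ℝ) ^ 650) * (x + 1 / n) ^ ((4 : ℝ) / 3)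
          ≤ A / (17:ℝ) ^ ((4 : ℝ) / 3) * (x + 1 / n) ^ ((4 : ℝ) / 3) :=
            mul_le_mul_of_nonneg_right (min_le_left _ _) hyp.le
        _ = A * ((x + 1 / n) ^ ((4 : ℝ) / 3) / (17:ℝ) ^ ((4 : ℝ) / 3)) := by ring
        _ ≤ _ := mul_le_mul_of_nonneg_left h3 hA.le
  · set r : ℕ := ⌊3 * x * n⌋₊ + 2 with hr
    have hr1 : 3 * x * n ≤ r := by
      rw [hr]; push_cast
      have := Nat.lt_floor_add_one (3 * x * n)
      linarith
    have hr2 : (r:ℝ) ≤ 3 * (n * (x + 1 / n)) := by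
      rw [hr, hny]; push_cast
      have := Nat.floor_le (show 0 ≤ 3 * x * n by positivity)
      linarith
    rcases Nat.lt_or_ge n (6 * r) with h6 | h6
    · have h7 : (n:ℝ) < 6 * r := by exact_mod_cast h6
      have h8 : 1 ≤ 18 * (x + 1 / n) := by
        have : (n:ℝ) * 1 ≤ n * (18 * (x + 1 / n)) := by linarith
        exact le_of_mul_le_mul_left this hn0
      have h9 : 1 ≤ (18:ℝ) ^ ((4 : ℝ) / 3) * (x + 1 / n) ^ ((4 : ℝ) / 3) := by
        rw [← Real.mul_rpow (by norm_num) hy0.le]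
        exact Real.one_le_rpow h8 (by norm_num)
      refine (Pr_le_one okhalf _ _).trans (h9.trans ?_)
      rw [add_mul]
      have : 0 ≤ 2 * B * (3:ℝ) ^ ((4 : ℝ) / 3) * (x + 1 / n) ^ ((4 : ℝ) / 3) := by positivity
      linarith
    · have h1 : Pr (fun _ => (1/2 : ℝ)) (RE 0 n 0 n) (Far n ((Real.sqrt 2 - x) * n)) ≤
          Pr (fun _ => (1/2 : ℝ)) (RE 0 n 0 n) (fun F => CC r n F ∨ CC' r n F) :=
        Pr_mono okhalf fun F _ h => CC_of_Far hx hx1 (by exact_mod_cast hr1) h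
      have h2 := Pr_or_le okhalf (RE 0 n 0 n) (CC r n) (CC' r n)
      rw [pr_CC'] at h2
      have h3 := hup r n (by omega) h6
      have h4 : ((r:ℝ) / n) ^ ((4 : ℝ) / 3) ≤
          (3:ℝ) ^ ((4 : ℝ) / 3) * (x + 1 / n) ^ ((4 : ℝ) / 3) := by
        rw [← Real.mul_rpow (by norm_num) hy0.le]
        apply Real.rpow_le_rpow (by positivity) _ (by norm_num)
        rw [div_le_iff₀ hn0]
        linarith
      have h5 := mul_le_mul_of_nonneg_left h4 hB.le
      have h7 : 0 ≤ (18:ℝ) ^ ((4 : ℝ) / 3) * (x + 1 / n) ^ ((4 : ℝ) / 3) := by positivity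
      calc _ ≤ _ := h1.trans h2
        _ ≤ 2 * (B * ((3:ℝ) ^ ((4 : ℝ) / 3) * (x + 1 / n) ^ ((4 : ℝ) / 3))) := by linarith
        _ ≤ _ := by rw [add_mul]; linarith

end H50DT

namespace H50DT

open H342L H342P H342P.Plain MeasureTheory TopologicalSpace Filter Topology

/-- The upper tail for the largest cluster. -/
theorem prob_ge {n : ℕ} (hn : 0 < n) {sel : Finset Edge → ℤ × ℤ}
    (hsel : ∀ F, F ⊆ edges n → Largest n F (sel F)) (s : ℝ) :
    prob n (fun F => s ≤ Metric.diam (outerBoundary n F (sel F))) =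
      H974.Pr (fun _ => (1/2 : ℝ)) (H974.RE 0 n 0 n) (Far n (s * n)) := by
  rw [prob_eq]
  apply H974.Pr_congr
  intro F hF
  rw [← edges_eq] at hF
  exact ge_diam_iff hn hF (hsel F hF) s

/-- The lower tail for the largest cluster. -/
theorem prob_le {n : ℕ} (hn : 0 < n) {sel : Finset Edge → ℤ × ℤ}
    (hsel : ∀ F, F ⊆ edges n → Largest n F (sel F)) (s : ℝ) :
    prob n (fun F => Metric.diam (outerBoundary n F (sel F)) ≤ s) =
      H974.Pr (fun _ => (1/2 : ℝ)) (H974.RE 0 n 0 n) (Sml n (s * n)) := by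
  rw [prob_eq]
  apply H974.Pr_congr
  intro F hF
  rw [← edges_eq] at hF
  exact diam_le_iff hn hF (hsel F hF) s

/-- The two tails at scale `n`. -/
def Tails (c C : ℝ) (n : ℕ) (f : Finset Edge → ℝ) : Prop :=
  (∀ x : ℝ, 0 ≤ x → x ≤ 1 → c * (x + 1 / n) ^ ((4 : ℝ) / 3) ≤
      prob n (fun F => Real.sqrt 2 - x ≤ f F) ∧
    prob n (fun F => Real.sqrt 2 - x ≤ f F) ≤ C * (x + 1 / n) ^ ((4 : ℝ) / 3)) ∧
  (∀ x : ℝ, 1 / n ≤ x → x < 1 → Real.exp (-(C / x ^ 2)) ≤ prob n (fun F => f F ≤ x) ∧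
    prob n (fun F => f F ≤ x) ≤ Real.exp (-(c / x ^ 2)))

theorem tails : ∃ c C : ℝ, 0 < c ∧ 0 < C ∧ ∀ n : ℕ, 0 < n → ∀ sel : Finset Edge → ℤ × ℤ,
    (∀ F, F ⊆ edges n → Largest n F (sel F)) →
      Tails c C n (fun F => Metric.diam (outerBoundary n F (sel F))) := by
  obtain ⟨c, C, hc, hC, h⟩ := far_bounds
  have hl2 : 0 < Real.log 2 := Real.log_pos (by norm_num)
  refine ⟨min c (Real.log 2 / 36), max C (Real.log 2 * 32000), by positivity, by positivity,
    fun n hn sel hsel => ⟨fun x hx hx1 => ?_, fun x hx hx1 => ?_⟩⟩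
  · rw [prob_ge hn hsel]
    obtain ⟨h1, h2⟩ := h n hn x hx hx1
    have hp : 0 ≤ (x + 1 / (n:ℝ)) ^ ((4 : ℝ) / 3) := by positivity
    exact ⟨(mul_le_mul_of_nonneg_right (min_le_left _ _) hp).trans h1,
      h2.trans (mul_le_mul_of_nonneg_right (le_max_left _ _) hp)⟩
  · rw [prob_le hn hsel]
    have hn0 : (0:ℝ) < n := by exact_mod_cast hn
    have hx' : 1 ≤ x * n := by rwa [div_le_iff₀ hn0] at hx
    have hx0 : 0 < x := lt_of_lt_of_le (by positivity) hx
    constructor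
    · refine le_trans (Real.exp_le_exp.mpr ?_) (small_lower hx' hx1.le)
      have := div_le_div_of_nonneg_right (le_max_right C (Real.log 2 * 32000))
        (sq_nonneg x)
      linarith
    · refine (small_upper hx' hx1).trans (Real.exp_le_exp.mpr ?_)
      have := div_le_div_of_nonneg_right (min_le_right c (Real.log 2 / 36)) (sq_nonneg x)
      linarith

/-- The diameter of the trace. -/
noncomputable def dia (γ : Curve) : ℝ := Metric.diam (Set.range γ.path)

theorem diam_le_hausdorff (A B : NonemptyCompacts ℂ) :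
    Metric.diam (A : Set ℂ) ≤ Metric.diam (B : Set ℂ) + 2 * dist A B := by
  refine le_of_forall_pos_le_add fun ε hε => ?_
  have hfin : Metric.hausdorffEDist (A : Set ℂ) B ≠ ⊤ :=
    Metric.hausdorffEDist_ne_top_of_nonempty_of_bounded A.nonempty B.nonempty
      A.isCompact.isBounded B.isCompact.isBounded
  have hlt : Metric.hausdorffDist (A : Set ℂ) B < dist A B + ε / 2 := by
    rw [Metric.NonemptyCompacts.dist_eq]; linarith
  refine Metric.diam_le_of_forall_dist_le (by positivity) fun x hx y hy => ?_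
  obtain ⟨x', hx', h1⟩ := Metric.exists_dist_lt_of_hausdorffDist_lt hx hlt hfin
  obtain ⟨y', hy', h2⟩ := Metric.exists_dist_lt_of_hausdorffDist_lt hy hlt hfin
  have h3 : dist x' y' ≤ Metric.diam (B : Set ℂ) :=
    Metric.dist_le_diam_of_mem B.isCompact.isBounded hx' hy'
  have h4 : dist x y ≤ dist x x' + dist x' y' + dist y' y := dist_triangle4 _ _ _ _
  rw [dist_comm y' y] at h4
  linarith

theorem continuous_dia : Continuous dia := by
  have h1 : Continuous (fun K : NonemptyCompacts ℂ => Metric.diam (K : Set ℂ)) := by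
    apply LipschitzWith.continuous (K := 2)
    apply LipschitzWith.of_dist_le_mul
    intro A B
    rw [Real.dist_eq, abs_le]
    have h2 := diam_le_hausdorff A B
    have h3 := diam_le_hausdorff B A
    rw [dist_comm B A] at h3
    have e : ((2 : NNReal) : ℝ) = 2 := rfl
    rw [e]
    constructor <;> linarith
  exact h1.comp Curve.continuous_trace

/-- The tails of the limits. -/
theorem tails_lim {c C : ℝ} (hc : 0 < c) (hC : 0 < C)
    {γ : (n : ℕ) → Finset Edge → Curve}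
    (hT : ∀ n : ℕ, 0 < n → Tails c C n (fun F => dia (γ n F)))
    {k : ℕ → ℕ} {μ : ProbabilityMeasure Curve} (hk : Tendsto k atTop atTop)
    (hμ : Tendsto (fun i => lawOf (k i) (γ (k i))) atTop (𝓝 μ)) :
    (∀ x : ℝ, 0 < x → x ≤ 1 →
      ENNReal.ofReal (c * x ^ ((4 : ℝ) / 3)) ≤ (μ : Measure Curve) {γ | Real.sqrt 2 - x ≤ dia γ} ∧
      (μ : Measure Curve) {γ | Real.sqrt 2 - x ≤ dia γ} ≤
        ENNReal.ofReal ((C * (3:ℝ) ^ ((4 : ℝ) / 3) + 4) * x ^ ((4 : ℝ) / 3))) ∧
    (∀ x : ℝ, 0 < x → x < 1 →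
      ENNReal.ofReal (Real.exp (-(C / x ^ 2))) ≤ (μ : Measure Curve) {γ | dia γ ≤ x} ∧
      (μ : Measure Curve) {γ | dia γ ≤ x} ≤ ENNReal.ofReal (Real.exp (-(c / 4 / x ^ 2)))) := by
  have hopen : ∀ {G : Set Curve}, IsOpen G → ∀ {q : ℝ},
      (∀ᶠ i in atTop, prob (k i) (fun F => γ (k i) F ∈ G) ≤ q) →
      (μ : Measure Curve) G ≤ ENNReal.ofReal q := by
    intro G hG q hq
    refine (ProbabilityMeasure.le_liminf_measure_open_of_tendsto hμ hG).trans ?_
    refine liminf_le_of_frequently_le (Eventually.frequently ?_)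
    filter_upwards [hq] with i hi
    rw [lawOf_apply _ _ hG.measurableSet]
    exact ENNReal.ofReal_le_ofReal hi
  have hclosed : ∀ {G : Set Curve}, IsClosed G → ∀ {q : ℝ},
      (∀ᶠ i in atTop, q ≤ prob (k i) (fun F => γ (k i) F ∈ G)) →
      ENNReal.ofReal q ≤ (μ : Measure Curve) G := by
    intro G hG q hq
    refine le_trans ?_ (ProbabilityMeasure.limsup_measure_closed_le_of_tendsto hμ hG)
    refine le_limsup_of_frequently_le (Eventually.frequently ?_)
    filter_upwards [hq] with i hi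
    rw [lawOf_apply _ _ hG.measurableSet]
    exact ENNReal.ofReal_le_ofReal hi
  have hbig : ∀ x : ℝ, 0 < x → ∀ᶠ i in atTop, 0 < k i ∧ 1 / (k i : ℝ) ≤ x := by
    intro x hx
    obtain ⟨m, hm⟩ := exists_nat_gt (1 / x)
    have hev : ∀ᶠ i in atTop, max m 1 ≤ k i := tendsto_atTop.mp hk _
    filter_upwards [hev] with i hi
    have h1 : 0 < k i := lt_of_lt_of_le one_pos ((le_max_right _ _).trans hi)
    have h2 : (0:ℝ) < k i := by exact_mod_cast h1
    have h3 : (m:ℝ) ≤ k i := by exact_mod_cast (le_max_left _ _).trans hi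
    refine ⟨h1, ?_⟩
    rw [div_le_iff₀ h2]
    rw [div_lt_iff₀ hx] at hm
    nlinarith
  constructor
  · intro x hx hx1
    have hxp : 0 < x ^ ((4 : ℝ) / 3) := Real.rpow_pos_of_pos hx _
    constructor
    · refine hclosed (isClosed_le continuous_const continuous_dia) ?_
      filter_upwards [hbig x hx] with i hi
      have h1 := ((hT (k i) hi.1).1 x hx.le hx1).1
      refine le_trans ?_ h1
      apply mul_le_mul_of_nonneg_left _ hc.le
      apply Real.rpow_le_rpow hx.le _ (by norm_num)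
      have : 0 ≤ 1 / (k i : ℝ) := by positivity
      linarith
    · rcases le_or_gt (2 * x) 1 with h2 | h2
      · have h3 : {γ : Curve | Real.sqrt 2 - x ≤ dia γ} ⊆
            {γ : Curve | Real.sqrt 2 - 2 * x < dia γ} := by
          intro γ hγ
          rw [Set.mem_ofPred_eq] at hγ ⊢
          linarith
        refine (measure_mono h3).trans ?_
        refine hopen (isOpen_lt continuous_const continuous_dia) ?_
        filter_upwards [hbig x hx] with i hi
        have h1 := ((hT (k i) hi.1).1 (2 * x) (by positivity) h2).2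
        refine le_trans (prob_mono ?_) (h1.trans ?_)
        · intro F _ hF
          exact le_of_lt hF
        · have h4 : (2 * x + 1 / (k i : ℝ)) ^ ((4 : ℝ) / 3) ≤
              (3:ℝ) ^ ((4 : ℝ) / 3) * x ^ ((4 : ℝ) / 3) := by
            rw [← Real.mul_rpow (by norm_num) hx.le]
            apply Real.rpow_le_rpow (by positivity) _ (by norm_num)
            linarith [hi.2]
          have := mul_le_mul_of_nonneg_left h4 hC.le
          rw [add_mul]
          have h5 : 0 ≤ 4 * x ^ ((4 : ℝ) / 3) := by positivity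
          linarith
      · refine prob_le_one.trans ?_
        rw [← ENNReal.ofReal_one]
        apply ENNReal.ofReal_le_ofReal
        have h5 : (1/2:ℝ) ^ (2:ℝ) ≤ x ^ ((4 : ℝ) / 3) := by
          calc (1/2:ℝ) ^ (2:ℝ) ≤ (1/2:ℝ) ^ ((4 : ℝ) / 3) :=
                Real.rpow_le_rpow_of_exponent_ge (by norm_num) (by norm_num) (by norm_num)
            _ ≤ _ := Real.rpow_le_rpow (by norm_num) (by linarith) (by norm_num)
        have h6 : (1/2:ℝ) ^ (2:ℝ) = 1/4 := by norm_num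
        rw [h6] at h5
        have h7 : 0 ≤ C * (3:ℝ) ^ ((4 : ℝ) / 3) * x ^ ((4 : ℝ) / 3) := by positivity
        rw [add_mul]
        linarith
  · intro x hx hx1
    constructor
    · refine hclosed (isClosed_le continuous_dia continuous_const) ?_
      filter_upwards [hbig x hx] with i hi
      exact ((hT (k i) hi.1).2 x hi.2 hx1).1
    · set y : ℝ := min (2 * x) ((1 + x) / 2) with hy
      have hy1 : y ≤ 2 * x := min_le_left _ _
      have hy2 : y < 1 := (min_le_right _ _).trans_lt (by linarith)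
      have hy3 : x < y := lt_min (by linarith) (by linarith)
      have hy0 : 0 < y := hx.trans hy3
      have h3 : {γ : Curve | dia γ ≤ x} ⊆ {γ : Curve | dia γ < y} := by
        intro γ hγ
        rw [Set.mem_ofPred_eq] at hγ ⊢
        linarith
      refine (measure_mono h3).trans ?_
      refine hopen (isOpen_lt continuous_dia continuous_const) ?_
      filter_upwards [hbig y hy0] with i hi
      have h1 := ((hT (k i) hi.1).2 y hi.2 hy2).2
      refine le_trans (prob_mono ?_) (h1.trans ?_)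
      · intro F _ hF
        exact le_of_lt hF
      · apply Real.exp_le_exp.mpr
        have h4 : c / 4 / x ^ 2 ≤ c / y ^ 2 := by
          rw [div_div, div_le_div_iff_of_pos_left hc (by positivity) (by positivity)]
          nlinarith
        linarith

end H50DT
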